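import Mathlib
import Pool.Agent.Chud.PD1
import Pool.Agent.Chud.PD2

set_option autoImplicit false

/-!
# A lower bound of Bezout type

For coprime forms `F, G` of degrees `a, b` in three variables the forms `u F + v G` of a large degree have
codimension `a b`. If every common zero of the ideal of all `D` with `D w, D q ∈ (F, G)` is the origin, then
`a b ≤ deg w · deg q`.
-/

namespace Q51.MN

open MvPolynomial Pool.Agent.Chud

variable {k : Type*} [Field k]

/-- the forms of degree `n` -/
abbrev Rf (k : Type*) [Field k] (n : ℕ) : Submodule k (MvPolynomial (Fin 3) k) :=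
  homogeneousSubmodule (Fin 3) k n

instance finite_Rf (n : ℕ) : Module.Finite k (homogeneousSubmodule (Fin 3) k n) := by
  apply Module.Finite.of_fg
  exact homogeneousSubmodule_fg _ _ n

/-- the map `(u, v) ↦ u F + v G` -/
noncomputable def twoMap (F G : MvPolynomial (Fin 3) k) (p q : ℕ) :
    ((Rf k p) × (Rf k q)) →ₗ[k] MvPolynomial (Fin 3) k :=
  LinearMap.coprod ((LinearMap.mulRight k F).comp (Rf k p).subtype)
    ((LinearMap.mulRight k G).comp (Rf k q).subtype)

theorem twoMap_apply (F G : MvPolynomial (Fin 3) k) (p q : ℕ) (x : (Rf k p) × (Rf k q)) :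
    twoMap F G p q x = x.1.1 * F + x.2.1 * G := rfl

/-- dimension of the space of the forms `u F + v G` -/
theorem finrank_two {F G : MvPolynomial (Fin 3) k} {a b : ℕ} (hF : F.IsHomogeneous a)
    (hG : G.IsHomogeneous b) (_hF0 : F ≠ 0) (hG0 : G ≠ 0) (hrel : IsRelPrime F G) (N : ℕ) :
    Module.finrank k (LinearMap.range (twoMap F G (N + b) (N + a))) + (N + 2).choose 2 =
      (N + b + 2).choose 2 + (N + a + 2).choose 2 := by
  classical
  let R : ℕ → Submodule k (MvPolynomial (Fin 3) k) := fun n => homogeneousSubmodule (Fin 3) k n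
  let K : R N →ₗ[k] ((R (N + b)) × (R (N + a))) := LinearMap.prod
    (LinearMap.codRestrict (R (N + b)) ((LinearMap.mulRight k G).comp (R N).subtype) (by
      intro x
      have h1 : (x.1).IsHomogeneous N := x.2
      exact h1.mul hG))
    (LinearMap.codRestrict (R (N + a)) (-((LinearMap.mulRight k F).comp (R N).subtype)) (by
      intro x
      have h1 : (x.1).IsHomogeneous N := x.2
      exact (h1.mul hF).neg))
  have hK1 : ∀ x, ((K x).1 : MvPolynomial (Fin 3) k) = x.1 * G := fun x => rfl
  have hK2 : ∀ x, ((K x).2 : MvPolynomial (Fin 3) k) = -(x.1 * F) := fun x => rfl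
  have hKinj : Function.Injective K := by
    intro x y hxy
    apply Subtype.ext
    have h1 : ((K x).1 : MvPolynomial (Fin 3) k) = (K y).1 := by rw [hxy]
    rw [hK1, hK1] at h1
    exact mul_right_cancel₀ hG0 h1
  have hker : LinearMap.ker (twoMap F G (N + b) (N + a)) = LinearMap.range K := by
    apply le_antisymm
    · intro x hx
      rw [LinearMap.mem_ker, twoMap_apply] at hx
      have h1 : x.1.1 * F + x.2.1 * G = 0 := hx
      have h2 : G ∣ x.1.1 * F := by
        have : x.1.1 * F = -x.2.1 * G := by linear_combination h1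
        rw [this]; exact Dvd.intro_left _ rfl
      have h3 : G ∣ x.1.1 := (hrel.symm).dvd_of_dvd_mul_right h2
      obtain ⟨H, hH⟩ := h3
      have h4 : x.2.1 = - (H * F) := by
        have e1 : G * (H * F + x.2.1) = 0 := by
          rw [hH] at h1
          linear_combination h1
        rcases mul_eq_zero.1 e1 with h | h
        · exact absurd h hG0
        · linear_combination h
      -- H is homogeneous of degree N
      have h5 : H.IsHomogeneous N := by
        by_cases hH0 : H = 0
        · rw [hH0]; exact isHomogeneous_zero _ _ _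
        · have hx1 : (x.1.1).IsHomogeneous (N + b) := x.1.2
          have hx0 : x.1.1 ≠ 0 := by
            rw [hH]; exact mul_ne_zero hG0 hH0
          have hHd := homog_of_dvd hx1 hx0 (Dvd.intro_left G hH.symm)
          have h6 := hG.mul hHd
          rw [← hH] at h6
          have h7 := h6.inj_right hx1 hx0
          have h8 : H.totalDegree = N := by omega
          rwa [h8] at hHd
      refine ⟨⟨H, h5⟩, ?_⟩
      apply Prod.ext
      · apply Subtype.ext
        rw [hK1]
        show H * G = x.1.1
        rw [hH, mul_comm]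
      · apply Subtype.ext
        rw [hK2]
        show -(H * F) = x.2.1
        rw [h4]
    · rintro _ ⟨x, rfl⟩
      rw [LinearMap.mem_ker, twoMap_apply, hK1, hK2]
      ring
  have e1 := LinearMap.finrank_range_add_finrank_ker (twoMap F G (N + b) (N + a))
  rw [hker, LinearMap.finrank_range_of_inj hKinj] at e1
  have e2 : Module.finrank k ((Rf k (N + b)) × (Rf k (N + a))) =
      (N + b + 2).choose 2 + (N + a + 2).choose 2 := by
    rw [Module.finrank_prod, finrank_forms, finrank_forms]
  have e3 : Module.finrank k (R N) = (N + 2).choose 2 := finrank_forms N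
  rw [e3, e2] at e1
  exact e1

theorem comp_mul {F : MvPolynomial (Fin 3) k} {a : ℕ} (hF : F.IsHomogeneous a)
    (u : MvPolynomial (Fin 3) k) (i : ℕ) :
    homogeneousComponent (i + a) (u * F) = homogeneousComponent i u * F := by
  have h0 : u * F = ∑ j ∈ Finset.range (u.totalDegree + 1), homogeneousComponent j u * F := by
    rw [← Finset.sum_mul, sum_homogeneousComponent]
  rw [h0, map_sum]
  have h1 : ∀ j ∈ Finset.range (u.totalDegree + 1),
      homogeneousComponent (i + a) (homogeneousComponent j u * F) =
        if i = j then homogeneousComponent j u * F else 0 := by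
    intro j _
    have h2 : (homogeneousComponent j u * F).IsHomogeneous (j + a) :=
      (homogeneousComponent_isHomogeneous j u).mul hF
    rw [homogeneousComponent_of_mem h2]
    by_cases h : i = j
    · rw [if_pos (by omega), if_pos h]
    · rw [if_neg (by omega), if_neg h]
  rw [Finset.sum_congr rfl h1, Finset.sum_ite_eq]
  by_cases h : i ∈ Finset.range (u.totalDegree + 1)
  · rw [if_pos h]
  · rw [if_neg h]
    rw [Finset.mem_range, not_lt] at h
    rw [homogeneousComponent_eq_zero _ _ (by omega), zero_mul]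

/-- a homogeneous element of the ideal `(F, G)` lies in the range -/
theorem mem_two {F G : MvPolynomial (Fin 3) k} {a b : ℕ} (hF : F.IsHomogeneous a)
    (hG : G.IsHomogeneous b) (N : ℕ) {T : MvPolynomial (Fin 3) k} (hT : T.IsHomogeneous (N + a + b))
    (h : T ∈ Ideal.span {F, G}) : T ∈ LinearMap.range (twoMap F G (N + b) (N + a)) := by
  rw [Ideal.mem_span_pair] at h
  obtain ⟨u, v, huv⟩ := h
  refine ⟨⟨⟨homogeneousComponent (N + b) u, homogeneousComponent_isHomogeneous _ _⟩,
    ⟨homogeneousComponent (N + a) v, homogeneousComponent_isHomogeneous _ _⟩⟩, ?_⟩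
  rw [twoMap_apply]
  show homogeneousComponent (N + b) u * F + homogeneousComponent (N + a) v * G = T
  rw [← comp_mul hF, ← comp_mul hG, show N + b + a = N + a + b by omega, ← map_add, huv]
  exact homogeneousComponent_eq_self hT

/-- a power of the ideal of the origin lies in an ideal whose only zero is the origin -/
theorem exists_pow_mem [IsAlgClosed k] {J : Ideal (MvPolynomial (Fin 3) k)}
    (hJ : ∀ v : Fin 3 → k, v ≠ 0 → ∃ D ∈ J, eval v D ≠ 0) :
    ∃ m : ℕ, ∀ n, m ≤ n → ∀ D : MvPolynomial (Fin 3) k, D.IsHomogeneous n → D ∈ J := by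
  have h1 : ∀ i : Fin 3, ∃ e : ℕ, (X i : MvPolynomial (Fin 3) k) ^ e ∈ J := by
    intro i
    have h2 : (X i : MvPolynomial (Fin 3) k) ∈ J.radical := by
      rw [← MvPolynomial.vanishingIdeal_zeroLocus_eq_radical (K := k)]
      rw [mem_vanishingIdeal_iff]
      intro v hv
      rw [mem_zeroLocus_iff] at hv
      by_cases hv0 : v = 0
      · rw [hv0]; simp
      · obtain ⟨D, hD, hD'⟩ := hJ v hv0
        exact absurd (by simpa [MvPolynomial.aeval_eq_eval] using hv D hD) hD'
    exact h2
  choose e he using h1
  refine ⟨e 0 + e 1 + e 2, fun n hn D hD => ?_⟩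
  rw [D.as_sum]
  apply Ideal.sum_mem
  intro d hd
  have hdn : d.degree = n := by
    by_contra hne
    have := hD.coeff_eq_zero hne
    exact (mem_support_iff.1 hd) this
  have hsum : d 0 + d 1 + d 2 = n := by
    rw [← hdn, Finsupp.degree_eq_sum, Fin.sum_univ_three]
  have h3 : ∃ i : Fin 3, e i ≤ d i := by
    by_contra hcon
    push Not at hcon
    have a0 := hcon 0
    have a1 := hcon 1
    have a2 := hcon 2
    omega
  obtain ⟨i, hi⟩ := h3
  have h5 : d = (d - Finsupp.single i (e i)) + Finsupp.single i (e i) := by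
    ext j
    by_cases hj : i = j
    · subst hj
      simp only [Finsupp.coe_add, Finsupp.coe_tsub, Pi.add_apply, Pi.sub_apply,
        Finsupp.single_eq_same]
      omega
    · simp [Finsupp.single_apply, hj]
  have h4 : monomial d (coeff d D) = monomial (d - Finsupp.single i (e i)) (coeff d D) *
      (X i : MvPolynomial (Fin 3) k) ^ e i := by
    rw [X_pow_eq_monomial, monomial_mul, mul_one, ← h5]
  rw [h4]
  exact Ideal.mul_mem_left _ _ (he i)

theorem choose_two_mul (m : ℕ) : 2 * (m + 2).choose 2 = (m + 2) * (m + 1) := by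
  rw [Nat.choose_two_right]
  have : 2 ∣ (m + 2) * (m + 2 - 1) := (Nat.even_mul_pred_self (m + 2)).two_dvd
  rw [Nat.mul_div_cancel' this]
  rfl

/-- the lower bound of Bezout type -/
theorem mul_le_mul_of_cover [IsAlgClosed k] {F G w q : MvPolynomial (Fin 3) k} {a b c d : ℕ}
    (hF : F.IsHomogeneous a) (hG : G.IsHomogeneous b) (hF0 : F ≠ 0) (hG0 : G ≠ 0)
    (hrel : IsRelPrime F G) (hw : w.IsHomogeneous c) (hq : q.IsHomogeneous d) (hw0 : w ≠ 0)
    (hq0 : q ≠ 0) (hrel' : IsRelPrime w q)
    (hJ : ∀ v : Fin 3 → k, v ≠ 0 → ∃ D : MvPolynomial (Fin 3) k, D * w ∈ Ideal.span {F, G} ∧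
      D * q ∈ Ideal.span {F, G} ∧ eval v D ≠ 0) : a * b ≤ c * d := by
  let J : Ideal (MvPolynomial (Fin 3) k) :=
    { carrier := {D | D * w ∈ Ideal.span {F, G} ∧ D * q ∈ Ideal.span {F, G}}
      add_mem' := by
        rintro x y ⟨h1, h2⟩ ⟨h3, h4⟩
        refine ⟨?_, ?_⟩
        · rw [add_mul]; exact add_mem h1 h3
        · rw [add_mul]; exact add_mem h2 h4
      zero_mem' := by
        refine ⟨?_, ?_⟩ <;> rw [zero_mul] <;> exact zero_mem _
      smul_mem' := by
        rintro r x ⟨h1, h2⟩
        refine ⟨?_, ?_⟩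
        · rw [smul_eq_mul, mul_assoc]; exact Ideal.mul_mem_left _ _ h1
        · rw [smul_eq_mul, mul_assoc]; exact Ideal.mul_mem_left _ _ h2 }
  obtain ⟨m, hm⟩ := exists_pow_mem (J := J) (fun v hv => by
    obtain ⟨D, h1, h2, h3⟩ := hJ v hv
    exact ⟨D, ⟨h1, h2⟩, h3⟩)
  set N := m + c + d with hN
  set N' := m + a + b with hN'
  -- total degree n = N + a + b = N' + c + d
  have hle : LinearMap.range (twoMap w q (N' + d) (N' + c)) ≤
      LinearMap.range (twoMap F G (N + b) (N + a)) := by
    rintro _ ⟨x, rfl⟩
    apply mem_two hF hG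
    · rw [twoMap_apply]
      have h1 : (x.1.1).IsHomogeneous (N' + d) := x.1.2
      have h2 : (x.2.1).IsHomogeneous (N' + c) := x.2.2
      have h3 := h1.mul hw
      have h4 := h2.mul hq
      have e3 : N' + d + c = N + a + b := by omega
      have e4 : N' + c + d = N + a + b := by omega
      rw [e3] at h3
      rw [e4] at h4
      exact h3.add h4
    · rw [twoMap_apply]
      have h1 : (x.1.1).IsHomogeneous (N' + d) := x.1.2
      have h2 : (x.2.1).IsHomogeneous (N' + c) := x.2.2
      exact add_mem (hm (N' + d) (by omega) _ h1).1 (hm (N' + c) (by omega) _ h2).2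
  have h1 := Submodule.finrank_mono hle
  have h2 := finrank_two hF hG hF0 hG0 hrel N
  have h3 := finrank_two hw hq hw0 hq0 hrel' N'
  have c1 := choose_two_mul N
  have c2 := choose_two_mul (N + a)
  have c3 := choose_two_mul (N + b)
  have c4 := choose_two_mul N'
  have c5 := choose_two_mul (N' + c)
  have c6 := choose_two_mul (N' + d)
  have key : 2 * (N' + d + 2).choose 2 + 2 * (N' + c + 2).choose 2 + 2 * (N + 2).choose 2 ≤
      2 * (N + b + 2).choose 2 + 2 * (N + a + 2).choose 2 + 2 * (N' + 2).choose 2 := by omega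
  rw [c1, c2, c3, c4, c5, c6] at key
  rw [hN, hN'] at key
  nlinarith

end Q51.MN
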