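import Mathlib

set_option autoImplicit false

/-!
# Heavy multinets in the complex projective plane: definitions

`R3` is the ring of polynomials in the homogeneous coordinates `x = X 0`, `y = X 1`, `z = X 2` of the
complex projective plane. A pencil of degree `d` is a two-dimensional space of forms of degree `d`. Its
completely reducible fibers are the members that are non-zero products of linear forms. A multinet is the
set of all completely reducible fibers of a pencil of Ceva type.
-/

namespace Q51.MN

open MvPolynomial

/-- polynomials in the homogeneous coordinates of the complex projective plane -/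
abbrev R3 := MvPolynomial (Fin 3) ℂ

/-- `f` is completely reducible: it is a non-zero product of linear forms (repetitions allowed) -/
def CompletelyReducible (f : R3) : Prop :=
  f ≠ 0 ∧ ∃ s : Multiset R3, (∀ l ∈ s, l.IsHomogeneous 1) ∧ f = s.prod

/-- the point with homogeneous coordinates `P` lies in the base `𝒳` of the pencil `V`, the common
intersection of its fibers -/
def InBase (V : Submodule ℂ R3) (P : Fin 3 → ℂ) : Prop := ∀ f ∈ V, eval P f = 0

/-- `V` is a pencil of degree `d` of Ceva type: a two-dimensional space of forms of degree `d`, without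
fixed component, with at least three completely reducible fibers, and such that no reduced fiber has
components meeting only in the base: whenever a reduced fiber is written as the union of two curves, these
two curves have a common point outside the base. -/
structure IsCevaPencil (d : ℕ) (V : Submodule ℂ R3) : Prop where
  /-- two-dimensional -/
  finrank_eq : Module.finrank ℂ V = 2
  /-- a space of forms of degree `d` -/
  homogeneous : ∀ f ∈ V, f.IsHomogeneous d
  /-- no fixed component -/
  no_fixed : ∀ g : R3, (∀ f ∈ V, g ∣ f) → IsUnit g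
  /-- three completely reducible fibers, pairwise non-proportional -/
  three : ∃ f : Fin 3 → R3, (∀ i, f i ∈ V ∧ CompletelyReducible (f i)) ∧
    ∀ i j, i ≠ j → ∀ c : ℂ, f i ≠ C c * f j
  /-- no reduced fiber has components meeting only in the base -/
  connected : ∀ f ∈ V, f ≠ 0 → Squarefree f → ∀ g h : R3, f = g * h → ¬ IsUnit g → ¬ IsUnit h →
    ∃ P : Fin 3 → ℂ, P ≠ 0 ∧ eval P g = 0 ∧ eval P h = 0 ∧ ¬ InBase V P

/-- the set of the points of the projective plane in the base of `V` -/
def base (V : Submodule ℂ R3) : Set (Projectivization ℂ (Fin 3 → ℂ)) := {p | InBase V p.rep}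

/-- The pencil `V` of degree `d` defines a heavy multinet: it is of Ceva type, the multinet is not a net
(`|𝒳| ≠ d²`), and not all completely reducible fibers are reduced (some line has multiplicity `> 1`). -/
structure IsHeavyMultinet (d : ℕ) (V : Submodule ℂ R3) : Prop where
  /-- of Ceva type -/
  ceva : IsCevaPencil d V
  /-- not a net -/
  not_net : (base V).ncard ≠ d ^ 2
  /-- some line has multiplicity greater than one in its fiber -/
  not_light : ∃ f ∈ V, CompletelyReducible f ∧ ∃ l : R3, l ≠ 0 ∧ l.IsHomogeneous 1 ∧ l ^ 2 ∣ f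

/-- the three products `F₁, F₂, F₃` of the arrangement `Q_n` in `P³` -/
noncomputable def Qform (n : ℕ) : Fin 3 → MvPolynomial (Fin 4) ℂ :=
  ![(X 0 ^ n - X 1 ^ n) * (X 2 ^ n - X 3 ^ n), (X 0 ^ n - X 2 ^ n) * (X 1 ^ n - X 3 ^ n),
    (X 0 ^ n - X 3 ^ n) * (X 1 ^ n - X 2 ^ n)]

/-- restriction of a form on `P³` to the plane parametrised (linearly, by homogeneous coordinates
`x, y, z`) by the matrix `M` -/
noncomputable def restrict (M : Matrix (Fin 4) (Fin 3) ℂ) : MvPolynomial (Fin 4) ℂ →ₐ[ℂ] R3 :=
  aeval (fun i => ∑ j, C (M i j) * X j)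

/-- The multinet of the pencil `V` is induced from `Q_n`: there is a plane `H` of `P³`, with a projective
linear identification with `P²` (the injective matrix `M`), which is not one of the planes of `Q_n` (no
`F_i` vanishes identically on `H`), such that, after division of the three restrictions by their greatest
common factor `g`, the quotients `f_i` are, up to non-zero constants, exactly the completely reducible
fibers of `V`. -/
def InducedFromQ (n : ℕ) (V : Submodule ℂ R3) : Prop :=
  ∃ M : Matrix (Fin 4) (Fin 3) ℂ, Function.Injective M.mulVec ∧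
    (∀ i, restrict M (Qform n i) ≠ 0) ∧
    ∃ (g : R3) (f : Fin 3 → R3), (∀ i, restrict M (Qform n i) = g * f i) ∧
      (∀ h : R3, (∀ i, h ∣ f i) → IsUnit h) ∧
      {p | p ∈ V ∧ CompletelyReducible p} = {p | ∃ (i : Fin 3) (c : ℂ), c ≠ 0 ∧ p = C c * f i}

/-- the first fiber,
`(25x² - z²)(25y² - z²)((3x + 4y)² + z²)((4x - 3y)² + z²)` -/
noncomputable def fB : R3 :=
  (25 * X 0 ^ 2 - X 2 ^ 2) * (25 * X 1 ^ 2 - X 2 ^ 2) * ((3 * X 0 + 4 * X 1) ^ 2 + X 2 ^ 2) *
    ((4 * X 0 - 3 * X 1) ^ 2 + X 2 ^ 2)

/-- the second fiber,
`(25x² + z²)(25y² + z²)((3x + 4y)² - z²)((4x - 3y)² - z²)` -/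
noncomputable def fC : R3 :=
  (25 * X 0 ^ 2 + X 2 ^ 2) * (25 * X 1 ^ 2 + X 2 ^ 2) * ((3 * X 0 + 4 * X 1) ^ 2 - X 2 ^ 2) *
    ((4 * X 0 - 3 * X 1) ^ 2 - X 2 ^ 2)

/-- the pencil spanned by the two fibers; its third completely reducible fiber is the difference
`-1200 z² (x² + y²) (2x + y) (x - 2y) (3x - y) (x + 3y)` -/
noncomputable def pencil : Submodule ℂ R3 := Submodule.span ℂ {fB, fC}

end Q51.MN
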