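import Mathlib
import Pool.Agent.Q51.MN.Defs

set_option autoImplicit false

/-!
# The eight linear forms

`η 0 = 5x`, `η 1 = 5y`, `η 2 = i(3x+4y)`, `η 3 = i(4x-3y)`; the sum of their squares is zero and
`fB = ∏ (η_h² - z²)`, `fC = ∏ (η_h² + z²)`.
-/

namespace Q51.MN

open MvPolynomial

/-- the four forms -/
noncomputable def eta : Fin 4 → R3 :=
  ![5 * X 0, 5 * X 1, C Complex.I * (3 * X 0 + 4 * X 1), C Complex.I * (4 * X 0 - 3 * X 1)]

theorem CI_sq : (C Complex.I : R3) ^ 2 = -1 := by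
  rw [← C_pow, Complex.I_sq, map_neg, C_1]

theorem num_mul_homog (n : ℕ) [n.AtLeastTwo] (k : Fin 3) :
    ((OfNat.ofNat n : R3) * X k).IsHomogeneous 1 := by
  have h : (OfNat.ofNat n : R3) = C (OfNat.ofNat n : ℂ) := (map_ofNat C n).symm
  rw [h]
  exact isHomogeneous_C_mul_X _ _

theorem fB_eq : fB = ∏ h, (eta h ^ 2 - X 2 ^ 2) := by
  rw [Fin.prod_univ_four]
  simp only [eta, fB, Matrix.cons_val_zero, Matrix.cons_val_one, Matrix.cons_val]
  have h := CI_sq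
  linear_combination ((25 * X 0 ^ 2 - X 2 ^ 2) * (25 * X 1 ^ 2 - X 2 ^ 2) *
    (-(C Complex.I ^ 2 - 1) * (3 * X 0 + 4 * X 1) ^ 2 * (4 * X 0 - 3 * X 1) ^ 2
      + X 2 ^ 2 * ((3 * X 0 + 4 * X 1) ^ 2 + (4 * X 0 - 3 * X 1) ^ 2))) * h

theorem fC_eq : fC = ∏ h, (eta h ^ 2 + X 2 ^ 2) := by
  rw [Fin.prod_univ_four]
  simp only [eta, fC, Matrix.cons_val_zero, Matrix.cons_val_one, Matrix.cons_val]
  have h := CI_sq
  linear_combination ((25 * X 0 ^ 2 + X 2 ^ 2) * (25 * X 1 ^ 2 + X 2 ^ 2) *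
    (-(C Complex.I ^ 2 - 1) * (3 * X 0 + 4 * X 1) ^ 2 * (4 * X 0 - 3 * X 1) ^ 2
      - X 2 ^ 2 * ((3 * X 0 + 4 * X 1) ^ 2 + (4 * X 0 - 3 * X 1) ^ 2))) * h

theorem eta_homog (h : Fin 4) : (eta h).IsHomogeneous 1 := by
  fin_cases h
  · exact num_mul_homog 5 0
  · exact num_mul_homog 5 1
  · have := (isHomogeneous_C (Fin 3) Complex.I).mul ((num_mul_homog 3 0).add (num_mul_homog 4 1))
    rwa [zero_add] at this
  · have := (isHomogeneous_C (Fin 3) Complex.I).mul ((num_mul_homog 4 0).sub (num_mul_homog 3 1))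
    rwa [zero_add] at this

theorem fB_homog : fB.IsHomogeneous 8 := by
  rw [fB_eq]
  have := IsHomogeneous.prod Finset.univ (fun h => (eta h ^ 2 - X 2 ^ 2 : R3)) (fun _ => 2) (by
    intro h _
    have h1 := (eta_homog h).pow 2
    have h2 := (isHomogeneous_X ℂ (2 : Fin 3)).pow 2
    exact h1.sub h2)
  simpa using this

theorem fC_homog : fC.IsHomogeneous 8 := by
  rw [fC_eq]
  have := IsHomogeneous.prod Finset.univ (fun h => (eta h ^ 2 + X 2 ^ 2 : R3)) (fun _ => 2) (by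
    intro h _
    have h1 := (eta_homog h).pow 2
    have h2 := (isHomogeneous_X ℂ (2 : Fin 3)).pow 2
    exact h1.add h2)
  simpa using this

/-- the points `η_h = z = 0` -/
noncomputable def pt : Fin 4 → Fin 3 → ℂ := ![![0, 1, 0], ![1, 0, 0], ![4, -3, 0], ![3, 4, 0]]

theorem pt_two (h : Fin 4) : pt h 2 = 0 := by
  fin_cases h <;> simp [pt]

theorem pt_ne (h : Fin 4) : pt h ≠ 0 := by
  intro h0
  have h1 := congrFun h0 0
  have h2 := congrFun h0 1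
  fin_cases h <;> simp [pt] at h1 h2

theorem eta_pt (h : Fin 4) : eval (pt h) (eta h) = 0 := by
  fin_cases h <;> simp [pt, eta] <;> norm_num

theorem eta_pt_ne {h k : Fin 4} (hk : h ≠ k) : eval (pt h) (eta k) ≠ 0 := by
  fin_cases h <;> fin_cases k <;> first | exact absurd rfl hk | skip
  all_goals simp [pt, eta] <;> norm_num

/-- evaluation at `P` of the four forms -/
noncomputable def ev (P : Fin 3 → ℂ) (h : Fin 4) : ℂ := eval P (eta h)

theorem ev_zero (P : Fin 3 → ℂ) : ev P 0 = 5 * P 0 := by simp [ev, eta]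
theorem ev_one (P : Fin 3 → ℂ) : ev P 1 = 5 * P 1 := by simp [ev, eta]
theorem ev_two (P : Fin 3 → ℂ) : ev P 2 = Complex.I * (3 * P 0 + 4 * P 1) := by simp [ev, eta]
theorem ev_three (P : Fin 3 → ℂ) : ev P 3 = Complex.I * (4 * P 0 - 3 * P 1) := by simp [ev, eta]

theorem eval_fB (P : Fin 3 → ℂ) : eval P fB = ∏ h, (ev P h ^ 2 - P 2 ^ 2) := by
  rw [fB_eq, map_prod]
  simp [ev]

theorem eval_fC (P : Fin 3 → ℂ) : eval P fC = ∏ h, (ev P h ^ 2 + P 2 ^ 2) := by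
  rw [fC_eq, map_prod]
  simp [ev]

theorem ev_sum (P : Fin 3 → ℂ) : ev P 0 ^ 2 + ev P 1 ^ 2 + ev P 2 ^ 2 + ev P 3 ^ 2 = 0 := by
  rw [ev_zero, ev_one, ev_two, ev_three]
  have := Complex.I_sq
  linear_combination ((3 * P 0 + 4 * P 1) ^ 2 + (4 * P 0 - 3 * P 1) ^ 2) * this

theorem ev_rel (P : Fin 3 → ℂ) :
    576 * ev P 0 ^ 2 * ev P 1 ^ 2 = (25 * ev P 2 ^ 2 + 9 * ev P 0 ^ 2 + 16 * ev P 1 ^ 2) ^ 2 := by
  rw [ev_zero, ev_one, ev_two]
  have h : (Complex.I * (3 * P 0 + 4 * P 1)) ^ 2 = -(3 * P 0 + 4 * P 1) ^ 2 := by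
    rw [mul_pow, Complex.I_sq]; ring
  rw [h]
  ring

/-- not all of the squares are `± z²` if `z ≠ 0` -/
theorem not_all {P : Fin 3 → ℂ} (hz : P 2 ≠ 0)
    (h : ∀ k, ev P k ^ 2 = P 2 ^ 2 ∨ ev P k ^ 2 = - P 2 ^ 2) : False := by
  have h4 : P 2 ^ 4 ≠ 0 := pow_ne_zero _ hz
  have hr := ev_rel P
  rcases h 0 with h0 | h0 <;> rcases h 1 with h1 | h1 <;> rcases h 2 with h2 | h2 <;>
    rw [h0, h1, h2] at hr <;> apply h4
  · linear_combination (-1 / 1924 : ℂ) * hr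
  · linear_combination (1 / 576 : ℂ) * hr
  · linear_combination (-1 / 900 : ℂ) * hr
  · linear_combination (-1 / 1600 : ℂ) * hr
  · linear_combination (-1 / 1600 : ℂ) * hr
  · linear_combination (-1 / 900 : ℂ) * hr
  · linear_combination (1 / 576 : ℂ) * hr
  · linear_combination (-1 / 1924 : ℂ) * hr

end Q51.MN
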