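import Mathlib
import Pool.Agent.Chud.PE1
import Pool.Agent.Q51.MN.Eta

set_option autoImplicit false

/-!
# Local analysis at the base points
-/

namespace Q51.MN

open MvPolynomial Pool.Agent.Chud

/-! ### homogeneous polynomials -/

theorem eval₂_scale {S : Type*} [CommRing S] (f : ℂ →+* S) {G : R3} {e : ℕ} (hG : G.IsHomogeneous e)
    (g : Fin 3 → S) (t : S) : eval₂ f (fun i => t * g i) G = t ^ e * eval₂ f g G := by
  rw [eval₂_eq', eval₂_eq', Finset.mul_sum]
  apply Finset.sum_congr rfl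
  intro d hd
  have hde : ∑ i, d i = e := by
    by_contra hne
    have h1 : d.degree ≠ e := by
      rw [Finsupp.degree_eq_sum]; exact hne
    exact (mem_support_iff.1 hd) (hG.coeff_eq_zero h1)
  simp only [mul_pow, Finset.prod_mul_distrib, Finset.prod_pow_eq_pow_sum, hde]
  ring

theorem eval_scale {G : R3} {e : ℕ} (hG : G.IsHomogeneous e) (P : Fin 3 → ℂ) (c : ℂ) :
    eval (c • P) G = c ^ e * eval P G := by
  have h := eval₂_scale (RingHom.id ℂ) hG P c
  exact h

/-- a linear form is irreducible -/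
theorem irreducible_linear {l : R3} (hl : l.IsHomogeneous 1) (h0 : l ≠ 0) : Irreducible l := by
  apply irreducible_of_totalDegree_eq_one
  · exact hl.totalDegree h0
  · intro x hx
    rw [isUnit_iff_ne_zero]
    intro hx0
    apply h0
    ext d
    have := hx d
    rw [hx0, zero_dvd_iff] at this
    rw [this, coeff_zero]

theorem relPrime_of_point {l m : R3} (hl : l.IsHomogeneous 1) (h0 : l ≠ 0) {P : Fin 3 → ℂ}
    (h1 : eval P l = 0) (h2 : eval P m ≠ 0) : IsRelPrime l m := by
  rw [(irreducible_linear hl h0).isRelPrime_iff_not_dvd]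
  rintro ⟨c, hc⟩
  apply h2
  rw [hc, map_mul, h1, zero_mul]

theorem z_homog : (X 2 : R3).IsHomogeneous 1 := isHomogeneous_X _ _

theorem z_ne : (X 2 : R3) ≠ 0 := X_ne_zero _

theorem eta_ne (h : Fin 4) : eta h ≠ 0 := by
  intro h0
  obtain ⟨k, hk⟩ : ∃ k : Fin 4, k ≠ h := by
    fin_cases h
    · exact ⟨1, by decide⟩
    · exact ⟨0, by decide⟩
    · exact ⟨0, by decide⟩
    · exact ⟨0, by decide⟩
  have := eta_pt_ne hk
  rw [h0, map_zero] at this
  exact this rfl

theorem z_eta (h : Fin 4) : IsRelPrime (X 2 : R3) (eta h) := by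
  obtain ⟨k, hk⟩ : ∃ k : Fin 4, k ≠ h := by
    fin_cases h
    · exact ⟨1, by decide⟩
    · exact ⟨0, by decide⟩
    · exact ⟨0, by decide⟩
    · exact ⟨0, by decide⟩
  apply relPrime_of_point z_homog z_ne (P := pt k)
  · rw [eval_X]; exact pt_two k
  · exact eta_pt_ne hk

/-! ### the directional derivative -/

/-- the derivative in the direction `w` -/
noncomputable def Dw (w : Fin 3 → ℂ) : Derivation ℂ R3 R3 := mkDerivation ℂ (fun k => C (w k))

theorem Dw_linear (w : Fin 3 → ℂ) {l : R3} (hl : l.IsHomogeneous 1) : Dw w l = C (eval w l) := by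
  have h := eq_sum_aux (N := 2) hl
  rw [h]
  simp only [map_sum, Derivation.leibniz, map_mul, eval_C, eval_X]
  apply Finset.sum_congr rfl
  intro i _
  have h1 : Dw w (X i : R3) = C (w i) := mkDerivation_X _ _ _
  have h2 : Dw w (C (coeff (Finsupp.single i 1) l) : R3) = 0 := derivation_C _ _
  rw [h1, h2]
  simp

theorem eval_Dw_mul (w P : Fin 3 → ℂ) (a b : R3) :
    eval P (Dw w (a * b)) = eval P a * eval P (Dw w b) + eval P b * eval P (Dw w a) := by
  rw [Derivation.leibniz, smul_eq_mul, smul_eq_mul, map_add, map_mul, map_mul]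

theorem eval_Dw_sq (w P : Fin 3 → ℂ) {l : R3} (hl : l.IsHomogeneous 1) :
    eval P (Dw w (l ^ 2)) = 2 * eval P l * eval w l := by
  rw [pow_two, eval_Dw_mul, Dw_linear w hl, eval_C]
  ring

/-- the points of the base outside `z = 0` -/
theorem base_cases {P : Fin 3 → ℂ} (hz : P 2 ≠ 0) (hB : eval P fB = 0) (hC : eval P fC = 0) :
    ∃ i j, ev P i ^ 2 = P 2 ^ 2 ∧ ev P j ^ 2 = - P 2 ^ 2 ∧ (∀ k, k ≠ i → ev P k ^ 2 ≠ P 2 ^ 2) ∧
      (∀ k, k ≠ j → ev P k ^ 2 ≠ - P 2 ^ 2) := by
  rw [eval_fB, Finset.prod_eq_zero_iff] at hB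
  rw [eval_fC, Finset.prod_eq_zero_iff] at hC
  obtain ⟨i, -, hi⟩ := hB
  obtain ⟨j, -, hj⟩ := hC
  have hi' : ev P i ^ 2 = P 2 ^ 2 := by linear_combination hi
  have hj' : ev P j ^ 2 = - P 2 ^ 2 := by linear_combination hj
  have hz2 : P 2 ^ 2 ≠ 0 := pow_ne_zero _ hz
  have hne : P 2 ^ 2 ≠ - P 2 ^ 2 := by
    intro h
    apply hz2
    linear_combination (1 / 2 : ℂ) * h
  have hij : i ≠ j := by
    intro h
    rw [h, hj'] at hi'
    exact hne hi'.symm
  have huniv : ∀ i j k m : Fin 4, i ≠ j → i ≠ k → i ≠ m → j ≠ k → j ≠ m → k ≠ m →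
      (Finset.univ : Finset (Fin 4)) = {i, j, k, m} := by decide
  have hsum : ∀ i j k m : Fin 4, i ≠ j → i ≠ k → i ≠ m → j ≠ k → j ≠ m → k ≠ m →
      ev P i ^ 2 + ev P j ^ 2 + ev P k ^ 2 + ev P m ^ 2 = 0 := by
    intro i j k m h1 h2 h3 h4 h5 h6
    have e1 := ev_sum P
    rw [← Fin.sum_univ_four (fun h => ev P h ^ 2), huniv i j k m h1 h2 h3 h4 h5 h6] at e1
    rw [Finset.sum_insert (by simp [h1, h2, h3]), Finset.sum_insert (by simp [h4, h5]),
      Finset.sum_insert (by simp [h6]), Finset.sum_singleton] at e1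
    linear_combination e1
  refine ⟨i, j, hi', hj', ?_, ?_⟩
  · intro k hk hk'
    have hkj : k ≠ j := by
      intro h
      rw [h, hj'] at hk'
      exact hne hk'.symm
    apply not_all hz
    intro m
    by_cases h1 : m = i
    · left; rw [h1]; exact hi'
    by_cases h2 : m = j
    · right; rw [h2]; exact hj'
    by_cases h3 : m = k
    · left; rw [h3]; exact hk'
    right
    have := hsum i j k m hij (Ne.symm hk) (Ne.symm h1) (Ne.symm hkj) (Ne.symm h2) (Ne.symm h3)
    rw [hi', hj', hk'] at this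
    linear_combination this
  · intro k hk hk'
    have hki : k ≠ i := by
      intro h
      rw [h, hi'] at hk'
      exact hne hk'
    apply not_all hz
    intro m
    by_cases h1 : m = i
    · left; rw [h1]; exact hi'
    by_cases h2 : m = j
    · right; rw [h2]; exact hj'
    by_cases h3 : m = k
    · right; rw [h3]; exact hk'
    left
    have := hsum i j k m hij (Ne.symm hki) (Ne.symm h1) (Ne.symm hk) (Ne.symm h2) (Ne.symm h3)
    rw [hi', hj', hk'] at this
    linear_combination this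

/-- the members other than the difference are smooth at the points of the base outside `z = 0` -/
theorem smooth {α β : ℂ} (hab : α + β ≠ 0) {g h : R3} (hf : C α * fB + C β * fC = g * h)
    {P : Fin 3 → ℂ} (hz : P 2 ≠ 0) (hB : eval P fB = 0) (hC : eval P fC = 0)
    (hg : eval P g = 0) (hh : eval P h = 0) : False := by
  obtain ⟨i, j, hi, hj, hi', hj'⟩ := base_cases hz hB hC
  have hz2 : P 2 ^ 2 ≠ 0 := pow_ne_zero _ hz
  have hij : i ≠ j := by
    intro h
    rw [h, hj] at hi
    apply hz2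
    linear_combination (-1 / 2 : ℂ) * hi
  -- derivative of the product
  have hgh : ∀ w, eval P (Dw w (g * h)) = 0 := by
    intro w
    rw [eval_Dw_mul, hg, hh]
    ring
  have hlin : ∀ w, α * eval P (Dw w fB) + β * eval P (Dw w fC) = 0 := by
    intro w
    have h1 := hgh w
    rw [← hf, map_add, map_add, eval_Dw_mul, eval_Dw_mul, eval_C, eval_C] at h1
    have h2 : ∀ c : ℂ, Dw w (C c : R3) = 0 := fun c => derivation_C _ _
    rw [h2, h2, map_zero] at h1
    linear_combination h1
  have hsqz : ∀ w : Fin 3 → ℂ, w 2 = 0 → eval P (Dw w ((X 2 : R3) ^ 2)) = 0 := by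
    intro w hw
    rw [eval_Dw_sq w P z_homog, eval_X, eval_X, hw, mul_zero]
  -- the product over the other factors
  have hBs : fB = (eta i ^ 2 - X 2 ^ 2) * ∏ k ∈ Finset.univ.erase i, (eta k ^ 2 - X 2 ^ 2) := by
    rw [fB_eq]
    exact (Finset.mul_prod_erase _ (fun k => (eta k ^ 2 - X 2 ^ 2 : R3)) (Finset.mem_univ i)).symm
  have hCs : fC = (eta j ^ 2 + X 2 ^ 2) * ∏ k ∈ Finset.univ.erase j, (eta k ^ 2 + X 2 ^ 2) := by
    rw [fC_eq]
    exact (Finset.mul_prod_erase _ (fun k => (eta k ^ 2 + X 2 ^ 2 : R3)) (Finset.mem_univ j)).symm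
  have hB0 : eval P (∏ k ∈ Finset.univ.erase i, (eta k ^ 2 - X 2 ^ 2)) ≠ 0 := by
    rw [map_prod]
    apply Finset.prod_ne_zero_iff.2
    intro k hk h0
    apply hi' k (Finset.ne_of_mem_erase hk)
    have : eval P (eta k ^ 2 - X 2 ^ 2) = ev P k ^ 2 - P 2 ^ 2 := by simp [ev]
    rw [this] at h0
    linear_combination h0
  have hC0 : eval P (∏ k ∈ Finset.univ.erase j, (eta k ^ 2 + X 2 ^ 2)) ≠ 0 := by
    rw [map_prod]
    apply Finset.prod_ne_zero_iff.2
    intro k hk h0
    apply hj' k (Finset.ne_of_mem_erase hk)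
    have : eval P (eta k ^ 2 + X 2 ^ 2) = ev P k ^ 2 + P 2 ^ 2 := by simp [ev]
    rw [this] at h0
    linear_combination h0
  have eB : eval P (eta i ^ 2 - X 2 ^ 2) = 0 := by
    have : eval P (eta i ^ 2 - X 2 ^ 2) = ev P i ^ 2 - P 2 ^ 2 := by simp [ev]
    rw [this, hi, sub_self]
  have eC : eval P (eta j ^ 2 + X 2 ^ 2) = 0 := by
    have : eval P (eta j ^ 2 + X 2 ^ 2) = ev P j ^ 2 + P 2 ^ 2 := by simp [ev]
    rw [this, hj]; ring
  have dB : ∀ w : Fin 3 → ℂ, w 2 = 0 → eval P (Dw w fB) =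
      eval P (∏ k ∈ Finset.univ.erase i, (eta k ^ 2 - X 2 ^ 2)) * (2 * ev P i * ev w i) := by
    intro w hw
    rw [hBs, eval_Dw_mul, eB, zero_mul, zero_add, map_sub, map_sub, hsqz w hw,
      eval_Dw_sq w P (eta_homog i), sub_zero]
    rfl
  have dC : ∀ w : Fin 3 → ℂ, w 2 = 0 → eval P (Dw w fC) =
      eval P (∏ k ∈ Finset.univ.erase j, (eta k ^ 2 + X 2 ^ 2)) * (2 * ev P j * ev w j) := by
    intro w hw
    rw [hCs, eval_Dw_mul, eC, zero_mul, zero_add, map_add, map_add, hsqz w hw,
      eval_Dw_sq w P (eta_homog j), add_zero]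
    rfl
  have hPi : ev P i ≠ 0 := by
    intro h0
    rw [h0] at hi
    apply hz2
    linear_combination -hi
  have hPj : ev P j ≠ 0 := by
    intro h0
    rw [h0] at hj
    apply hz2
    linear_combination hj
  have hβ : β = 0 := by
    have h1 := hlin (pt i)
    rw [dB _ (pt_two i), dC _ (pt_two i)] at h1
    have h2 : ev (pt i) i = 0 := eta_pt i
    have h3 : ev (pt i) j ≠ 0 := eta_pt_ne hij
    rw [h2, mul_zero, mul_zero, mul_zero, zero_add] at h1
    rcases mul_eq_zero.1 h1 with h | h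
    · exact h
    · exfalso
      rcases mul_eq_zero.1 h with h | h
      · exact hC0 h
      · rcases mul_eq_zero.1 h with h | h
        · rcases mul_eq_zero.1 h with h | h
          · norm_num at h
          · exact hPj h
        · exact h3 h
  have hα : α = 0 := by
    have h1 := hlin (pt j)
    rw [dB _ (pt_two j), dC _ (pt_two j)] at h1
    have h2 : ev (pt j) j = 0 := eta_pt j
    have h3 : ev (pt j) i ≠ 0 := eta_pt_ne (Ne.symm hij)
    rw [h2, mul_zero, mul_zero, mul_zero, add_zero] at h1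
    rcases mul_eq_zero.1 h1 with h | h
    · exact h
    · exfalso
      rcases mul_eq_zero.1 h with h | h
      · exact hB0 h
      · rcases mul_eq_zero.1 h with h | h
        · rcases mul_eq_zero.1 h with h | h
          · norm_num at h
          · exact hPi h
        · exact h3 h
  rw [hα, hβ] at hab
  exact hab (add_zero 0)

/-- a point with `η_h = z = 0` is a multiple of `pt h` -/
theorem exists_scale {P : Fin 3 → ℂ} (hP : P ≠ 0) (hz : P 2 = 0) {h : Fin 4} (he : ev P h = 0) :
    ∃ c : ℂ, c ≠ 0 ∧ P = c • pt h := by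
  have key : ∃ c : ℂ, P = c • pt h := by
    fin_cases h
    · refine ⟨P 1, ?_⟩
      have h1 : ev P 0 = 0 := he
      rw [ev_zero] at h1
      have h2 : P 0 = 0 := by linear_combination (1 / 5 : ℂ) * h1
      ext k
      fin_cases k <;> simp [pt, h2, hz]
    · refine ⟨P 0, ?_⟩
      have h1 : ev P 1 = 0 := he
      rw [ev_one] at h1
      have h2 : P 1 = 0 := by linear_combination (1 / 5 : ℂ) * h1
      ext k
      fin_cases k <;> simp [pt, h2, hz]
    · refine ⟨P 0 / 4, ?_⟩
      have h1 : ev P 2 = 0 := he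
      rw [ev_two] at h1
      have h2 : 3 * P 0 + 4 * P 1 = 0 := by
        rcases mul_eq_zero.1 h1 with h | h
        · exact absurd h Complex.I_ne_zero
        · exact h
      have h3 : P 1 = -3 / 4 * P 0 := by linear_combination (1 / 4 : ℂ) * h2
      ext k
      fin_cases k
      · simp [pt]
      · simp [pt, h3]; ring
      · simp [pt, hz]
    · refine ⟨P 0 / 3, ?_⟩
      have h1 : ev P 3 = 0 := he
      rw [ev_three] at h1
      have h2 : 4 * P 0 - 3 * P 1 = 0 := by
        rcases mul_eq_zero.1 h1 with h | h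
        · exact absurd h Complex.I_ne_zero
        · exact h
      have h3 : P 1 = 4 / 3 * P 0 := by linear_combination (-1 / 3 : ℂ) * h2
      ext k
      fin_cases k
      · simp [pt]
      · simp [pt, h3]; ring
      · simp [pt, hz]
  obtain ⟨c, hc⟩ := key
  refine ⟨c, ?_, hc⟩
  intro h0
  apply hP
  rw [hc, h0, zero_smul]

end Q51.MN
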