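import Mathlib
import Pool.Agent.Q51.MN.Loc
import Pool.Agent.Q51.MN.Bez

set_option autoImplicit false

/-!
# The reduced members are connected outside the base
-/

namespace Q51.MN

open MvPolynomial Pool.Agent.Chud

/-- a linear form equal to one at `pt h` -/
noncomputable def theta : Fin 4 → R3 :=
  ![X 1, X 0, C (4 / 25) * X 0 - C (3 / 25) * X 1, C (3 / 25) * X 0 + C (4 / 25) * X 1]

theorem X_sub_mem (h : Fin 4) (k : Fin 3) :
    (X k : R3) - C (pt h k) * theta h ∈ Ideal.span {eta h, (X 2 : R3)} := by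
  rw [Ideal.mem_span_pair]
  have hI := Complex.I_sq
  fin_cases h <;> fin_cases k
  · refine ⟨C (1 / 5), 0, ?_⟩
    apply MvPolynomial.funext; intro x
    simp [eta, theta, pt]
  · refine ⟨0, 0, ?_⟩
    simp [theta, pt]
  · refine ⟨0, 1, ?_⟩
    simp [pt]
  · refine ⟨0, 0, ?_⟩
    simp [theta, pt]
  · refine ⟨C (1 / 5), 0, ?_⟩
    apply MvPolynomial.funext; intro x
    simp [eta, theta, pt]
  · refine ⟨0, 1, ?_⟩
    simp [pt]
  · refine ⟨C (-Complex.I * 3 / 25), 0, ?_⟩
    apply MvPolynomial.funext; intro x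
    simp [eta, theta, pt]
    linear_combination (-(3 : ℂ) / 25 * (3 * x 0 + 4 * x 1)) * hI
  · refine ⟨C (-Complex.I * 4 / 25), 0, ?_⟩
    apply MvPolynomial.funext; intro x
    simp [eta, theta, pt]
    linear_combination (-(4 : ℂ) / 25 * (3 * x 0 + 4 * x 1)) * hI
  · refine ⟨0, 1, ?_⟩
    simp [pt]
  · refine ⟨C (-Complex.I * 4 / 25), 0, ?_⟩
    apply MvPolynomial.funext; intro x
    simp [eta, theta, pt]
    linear_combination (-(4 : ℂ) / 25 * (4 * x 0 - 3 * x 1)) * hI
  · refine ⟨C (Complex.I * 3 / 25), 0, ?_⟩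
    apply MvPolynomial.funext; intro x
    simp [eta, theta, pt]
    linear_combination ((3 : ℂ) / 25 * (4 * x 0 - 3 * x 1)) * hI
  · refine ⟨0, 1, ?_⟩
    simp [pt]

/-- a form that vanishes at `pt h` is a combination of `η_h` and `z` -/
theorem loc1 (h : Fin 4) {G : R3} {e : ℕ} (hG : G.IsHomogeneous e) (h0 : eval (pt h) G = 0) :
    ∃ A B : R3, A.IsHomogeneous (e - 1) ∧ B.IsHomogeneous (e - 1) ∧ G = A * eta h + B * X 2 := by
  rcases Nat.eq_zero_or_pos e with he | he
  · subst he
    have h1 : G = C (coeff 0 G) := by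
      rw [← totalDegree_eq_zero_iff_eq_C]
      exact (totalDegree_zero_iff_isHomogeneous (Fin 3)).2 hG
    rw [h1, eval_C] at h0
    refine ⟨0, 0, isHomogeneous_zero _ _ _, isHomogeneous_zero _ _ _, ?_⟩
    rw [h1, h0]
    simp
  · have hmem : G ∈ Ideal.span {eta h, (X 2 : R3)} := by
      set I := Ideal.span {eta h, (X 2 : R3)} with hI
      let q : R3 →+* R3 ⧸ I := Ideal.Quotient.mk I
      have hX : ∀ k, q (X k) = q (theta h) * q (C (pt h k)) := by
        intro k
        have h1 := X_sub_mem h k
        rw [← Ideal.Quotient.eq_zero_iff_mem, map_sub, sub_eq_zero] at h1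
        have h2 : q (X k) = q (C (pt h k) * theta h) := h1
        rw [h2, map_mul, mul_comm]
      rw [← Ideal.Quotient.eq_zero_iff_mem]
      have h3 : q G = eval₂ (q.comp C) (fun k => q (X k)) G := by
        conv_lhs => rw [← eval₂_eta G]
        rw [hom_eval₂]
      have h4 : q G = 0 := by
        rw [h3]
        simp only [hX]
        rw [eval₂_scale (q.comp C) hG]
        have h5 : eval₂ (q.comp C) (fun k => q (C (pt h k))) G = q (C (eval (pt h) G)) := by
          have := hom_eval₂ G (RingHom.id ℂ) (q.comp C) (pt h)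
          rw [RingHom.comp_id] at this
          exact this.symm
        rw [h5, h0, map_zero, map_zero, mul_zero]
      exact h4
    rw [Ideal.mem_span_pair] at hmem
    obtain ⟨u, v, huv⟩ := hmem
    refine ⟨homogeneousComponent (e - 1) u, homogeneousComponent (e - 1) v,
      homogeneousComponent_isHomogeneous _ _, homogeneousComponent_isHomogeneous _ _, ?_⟩
    rw [← comp_mul (eta_homog h), ← comp_mul z_homog, ← map_add, huv, Nat.sub_add_cancel he]
    exact (homogeneousComponent_eq_self hG).symm

/-- coefficients of a vanishing quadratic expression vanish where the two coprime forms vanish -/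
theorem reg {L w U V W : R3} (hL0 : L ≠ 0) (hw0 : w ≠ 0) (hrel : IsRelPrime w L) {P : Fin 3 → ℂ}
    (hL : eval P L = 0) (hw : eval P w = 0) (h : U * L ^ 2 + V * (L * w) + W * w ^ 2 = 0) :
    eval P U = 0 ∧ eval P V = 0 ∧ eval P W = 0 := by
  have h1 : w ∣ U * L ^ 2 := by
    refine ⟨-(V * L + W * w), ?_⟩
    linear_combination h
  have h2 : w ∣ U := (hrel.pow_right (n := 2)).dvd_of_dvd_mul_right h1
  obtain ⟨U', rfl⟩ := h2
  have h3 : U' * L ^ 2 + V * L + W * w = 0 := by
    apply mul_left_cancel₀ hw0
    rw [mul_zero]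
    linear_combination h
  have h4 : L ∣ W * w := by
    refine ⟨-(U' * L + V), ?_⟩
    linear_combination h3
  have h5 : L ∣ W := hrel.symm.dvd_of_dvd_mul_right h4
  obtain ⟨W', rfl⟩ := h5
  have h6 : U' * L + V + W' * w = 0 := by
    apply mul_left_cancel₀ hL0
    rw [mul_zero]
    linear_combination h3
  refine ⟨by rw [map_mul, hw, zero_mul], ?_, by rw [map_mul, hL, zero_mul]⟩
  have h7 := congrArg (eval P) h6
  rw [map_add, map_add, map_mul, map_mul, hL, hw, map_zero] at h7
  linear_combination h7

/-- the determinant at a base point -/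
theorem local_det {L w g h A B C' D E1 E3 : R3} (hL0 : L ≠ 0) (hw0 : w ≠ 0) (hrel : IsRelPrime w L)
    {P : Fin 3 → ℂ} (hL : eval P L = 0) (hw : eval P w = 0) (hg : g = A * L + B * w)
    (hh : h = C' * L + D * w) (hf : g * h = L ^ 2 * E1 + w ^ 2 * E3) (hE1 : eval P E1 ≠ 0)
    (hE3 : eval P E3 ≠ 0) :
    ∃ Δ : R3, Δ * w ∈ Ideal.span {g, h} ∧ Δ * L ∈ Ideal.span {g, h} ∧ eval P Δ ≠ 0 := by
  have h1 : (A * C' - E1) * L ^ 2 + (A * D + B * C') * (L * w) + (B * D - E3) * w ^ 2 = 0 := by
    rw [hg, hh] at hf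
    linear_combination hf
  obtain ⟨h2, h3, h4⟩ := reg hL0 hw0 hrel hL hw h1
  refine ⟨A * D - B * C', ?_, ?_, ?_⟩
  · rw [Ideal.mem_span_pair]
    refine ⟨-C', A, ?_⟩
    rw [hg, hh]; ring
  · rw [Ideal.mem_span_pair]
    refine ⟨D, -B, ?_⟩
    rw [hg, hh]; ring
  · intro h5
    rw [map_sub, map_mul] at h2 h4 h5
    rw [map_add, map_mul, map_mul] at h3
    rw [map_mul] at h5
    have h6 : eval P E1 * eval P E3 = 0 := by
      have e1 : eval P A * eval P C' = eval P E1 := by linear_combination h2
      have e3 : eval P B * eval P D = eval P E3 := by linear_combination h4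
      have e4 : eval P A * eval P D = 0 := by linear_combination (1 / 2 : ℂ) * h5 + (1 / 2 : ℂ) * h3
      rw [← e1, ← e3]
      linear_combination (eval P C' * eval P B) * e4
    rcases mul_eq_zero.1 h6 with h | h
    · exact hE1 h
    · exact hE3 h

/-- the factorisations at the base point `pt h` -/
theorem split (h : Fin 4) : ∃ A B D : R3,
    A.IsHomogeneous 2 ∧ B.IsHomogeneous 2 ∧ D.IsHomogeneous 2 ∧
    fB = (eta h ^ 2 - X 2 ^ 2) * ((A - X 2 ^ 2) * (B - X 2 ^ 2) * (D - X 2 ^ 2)) ∧
    fC = (eta h ^ 2 + X 2 ^ 2) * ((A + X 2 ^ 2) * (B + X 2 ^ 2) * (D + X 2 ^ 2)) ∧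
    eval (pt h) (A * B * D) ≠ 0 ∧ eval (pt h) (A * B + B * D + D * A) ≠ 0 := by
  have hI := Complex.I_sq
  rw [fB_eq, fC_eq, Fin.prod_univ_four, Fin.prod_univ_four]
  fin_cases h
  · refine ⟨eta 1 ^ 2, eta 2 ^ 2, eta 3 ^ 2, (eta_homog _).pow 2, (eta_homog _).pow 2,
      (eta_homog _).pow 2, ?_, ?_, ?_, ?_⟩
    · simp only [Fin.zero_eta]; ring
    · simp only [Fin.zero_eta]; ring
    · simp only [map_mul, map_pow]
      refine mul_ne_zero (mul_ne_zero ?_ ?_) ?_ <;> apply pow_ne_zero <;> apply eta_pt_ne <;> decide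
    · simp [eta, pt, mul_pow]; norm_num
  · refine ⟨eta 0 ^ 2, eta 2 ^ 2, eta 3 ^ 2, (eta_homog _).pow 2, (eta_homog _).pow 2,
      (eta_homog _).pow 2, ?_, ?_, ?_, ?_⟩
    · simp only [Fin.mk_one]; ring
    · simp only [Fin.mk_one]; ring
    · simp only [map_mul, map_pow]
      refine mul_ne_zero (mul_ne_zero ?_ ?_) ?_ <;> apply pow_ne_zero <;> apply eta_pt_ne <;> decide
    · simp [eta, pt, mul_pow]; norm_num
  · refine ⟨eta 0 ^ 2, eta 1 ^ 2, eta 3 ^ 2, (eta_homog _).pow 2, (eta_homog _).pow 2,
      (eta_homog _).pow 2, ?_, ?_, ?_, ?_⟩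
    · simp only [Fin.reduceFinMk]; ring
    · simp only [Fin.reduceFinMk]; ring
    · simp only [map_mul, map_pow]
      refine mul_ne_zero (mul_ne_zero ?_ ?_) ?_ <;> apply pow_ne_zero <;> apply eta_pt_ne <;> decide
    · simp [eta, pt, mul_pow]; norm_num
  · refine ⟨eta 0 ^ 2, eta 1 ^ 2, eta 2 ^ 2, (eta_homog _).pow 2, (eta_homog _).pow 2,
      (eta_homog _).pow 2, ?_, ?_, ?_, ?_⟩
    · simp only [Fin.reduceFinMk]; ring
    · simp only [Fin.reduceFinMk]; ring
    · simp only [map_mul, map_pow]
      refine mul_ne_zero (mul_ne_zero ?_ ?_) ?_ <;> apply pow_ne_zero <;> apply eta_pt_ne <;> decide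
    · simp [eta, pt, mul_pow]; norm_num

theorem pt_det {k l : Fin 4} (h : k ≠ l) : pt k 0 * pt l 1 - pt k 1 * pt l 0 ≠ 0 := by
  fin_cases k <;> fin_cases l <;> first | exact absurd rfl h | skip
  all_goals simp [pt] <;> norm_num

theorem linear_vanish {g : R3} (hg : g.IsHomogeneous 1) {k l : Fin 4} (h : k ≠ l)
    (hk : eval (pt k) g = 0) (hl : eval (pt l) g = 0) : eval ![1, 1, 0] g = 0 := by
  have h1 : g = ∑ j : Fin 3, C (coeff (Finsupp.single j 1) g) * X j := eq_sum_aux (N := 2) hg
  rw [h1, Fin.sum_univ_three, map_add, map_add, map_mul, map_mul, map_mul, eval_C, eval_C, eval_C,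
    eval_X, eval_X, eval_X] at hk hl ⊢
  rw [pt_two, mul_zero, add_zero] at hk hl
  set a := coeff (Finsupp.single (0 : Fin 3) 1) g
  set b := coeff (Finsupp.single (1 : Fin 3) 1) g
  have hd := pt_det h
  have ha : a = 0 := by
    have : a * (pt k 0 * pt l 1 - pt k 1 * pt l 0) = 0 := by
      linear_combination (pt l 1) * hk - (pt k 1) * hl
    rcases mul_eq_zero.1 this with h | h
    · exact h
    · exact absurd h hd
  have hb : b = 0 := by
    have : b * (pt k 0 * pt l 1 - pt k 1 * pt l 0) = 0 := by
      linear_combination (-(pt l 0)) * hk + (pt k 0) * hl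
    rcases mul_eq_zero.1 this with h | h
    · exact h
    · exact absurd h hd
  rw [ha, hb]
  simp

theorem eval_one_one (α β : ℂ) (hab : α + β ≠ 0) :
    eval ![1, 1, 0] (C α * fB + C β * fC) ≠ 0 := by
  rw [map_add, map_mul, map_mul, eval_C, eval_C, eval_fB, eval_fC, Fin.prod_univ_four,
    Fin.prod_univ_four, ev_zero, ev_one, ev_two, ev_three]
  intro h
  apply hab
  simp [mul_pow] at h
  ring_nf at h
  have : (α + β) * 30625 = 0 := by linear_combination h
  rcases mul_eq_zero.1 this with h | h
  · exact h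
  · norm_num at h

theorem eval_point_z (α β : ℂ) : eval ![0, 0, 1] (C α * fB + C β * fC) = α + β := by
  rw [map_add, map_mul, map_mul, eval_C, eval_C, eval_fB, eval_fC, Fin.prod_univ_four,
    Fin.prod_univ_four, ev_zero, ev_one, ev_two, ev_three]
  simp

/-- two curves whose union is a member of the pencil, different from the difference `fB - fC`, and which
meet only in the base: impossible -/
theorem connected_aux {α β : ℂ} (hab : α + β ≠ 0) {g h : R3} (hf : C α * fB + C β * fC = g * h)
    (hrel : IsRelPrime g h) (hg : ¬ IsUnit g) (hh : ¬ IsUnit h)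
    (hno : ∀ P : Fin 3 → ℂ, P ≠ 0 → eval P g = 0 → eval P h = 0 → eval P fB = 0 ∧ eval P fC = 0) :
    False := by
  classical
  have hf0 : C α * fB + C β * fC ≠ 0 := by
    intro h0
    have := eval_point_z α β
    rw [h0, map_zero] at this
    exact hab this.symm
  have hfh : (C α * fB + C β * fC : R3).IsHomogeneous 8 := by
    have h1 := (isHomogeneous_C (Fin 3) α).mul fB_homog
    have h2 := (isHomogeneous_C (Fin 3) β).mul fC_homog
    rw [zero_add] at h1 h2
    exact h1.add h2
  have hgh0 : g * h ≠ 0 := by rw [← hf]; exact hf0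
  have hg0 : g ≠ 0 := left_ne_zero_of_mul hgh0
  have hh0 : h ≠ 0 := right_ne_zero_of_mul hgh0
  have hgH : g.IsHomogeneous g.totalDegree := homog_of_dvd hfh hf0 (Dvd.intro _ hf.symm)
  have hhH : h.IsHomogeneous h.totalDegree := homog_of_dvd hfh hf0 (Dvd.intro_left _ hf.symm)
  set a := g.totalDegree with ha
  set b := h.totalDegree with hb
  have hab8 : a + b = 8 := by
    have h1 := hgH.mul hhH
    rw [← hf] at h1
    exact h1.inj_right hfh hf0
  have ha1 : 1 ≤ a := by
    by_contra hlt
    have h0 : g.totalDegree = 0 := by omega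
    rw [totalDegree_eq_zero_iff_eq_C] at h0
    apply hg
    rw [h0]
    apply IsUnit.map
    rw [isUnit_iff_ne_zero]
    intro hc
    apply hg0
    rw [h0, hc, map_zero]
  have hb1 : 1 ≤ b := by
    by_contra hlt
    have h0 : h.totalDegree = 0 := by omega
    rw [totalDegree_eq_zero_iff_eq_C] at h0
    apply hh
    rw [h0]
    apply IsUnit.map
    rw [isUnit_iff_ne_zero]
    intro hc
    apply hh0
    rw [h0, hc, map_zero]
  -- common zeros
  have hcz : ∀ v : Fin 3 → ℂ, v ≠ 0 → eval v g = 0 → eval v h = 0 →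
      v 2 = 0 ∧ ∃ (k : Fin 4) (c : ℂ), c ≠ 0 ∧ v = c • pt k ∧ ev v k = 0 := by
    intro v hv hvg hvh
    obtain ⟨hB, hC⟩ := hno v hv hvg hvh
    have hz : v 2 = 0 := by
      by_contra hz
      exact smooth hab hf hz hB hC hvg hvh
    refine ⟨hz, ?_⟩
    rw [eval_fB, Finset.prod_eq_zero_iff] at hB
    obtain ⟨k, -, hk⟩ := hB
    rw [hz] at hk
    have hk' : ev v k = 0 := by
      have : ev v k ^ 2 = 0 := by linear_combination hk
      exact pow_eq_zero_iff (two_ne_zero) |>.1 this
    obtain ⟨c, hc, hvc⟩ := exists_scale hv hz hk'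
    exact ⟨k, c, hc, hvc, hk'⟩
  have hptk : ∀ {G : R3} {e : ℕ}, G.IsHomogeneous e → ∀ {k : Fin 4} {c : ℂ} {v : Fin 3 → ℂ},
      c ≠ 0 → v = c • pt k → eval v G = 0 → eval (pt k) G = 0 := by
    intro G e hG k c v hc hv h0
    rw [hv, eval_scale hG] at h0
    rcases mul_eq_zero.1 h0 with h | h
    · exact absurd h (pow_ne_zero _ hc)
    · exact h
  have hptk' : ∀ {G : R3} {e : ℕ}, G.IsHomogeneous e → ∀ {k : Fin 4} {c : ℂ} {v : Fin 3 → ℂ},
      c ≠ 0 → v = c • pt k → eval (pt k) G ≠ 0 → eval v G ≠ 0 := by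
    intro G e hG k c v hc hv h0 h1
    exact h0 (hptk hG hc hv h1)
  set S : Finset (Fin 4) := Finset.univ.filter (fun k => eval (pt k) g = 0 ∧ eval (pt k) h = 0)
    with hS
  set q : R3 := ∏ k ∈ S, eta k with hq
  have hqH : q.IsHomogeneous S.card := by
    have := IsHomogeneous.prod S (fun k => (eta k : R3)) (fun _ => 1) (fun k _ => eta_homog k)
    simpa using this
  have hq0 : q ≠ 0 := Finset.prod_ne_zero_iff.2 (fun k _ => eta_ne k)
  have hzq : IsRelPrime (X 2 : R3) q := IsRelPrime.prod_right (fun k _ => z_eta k)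
  have hScard : S.card ≤ 4 := by
    have := Finset.card_le_univ S
    simpa using this
  have hkS : ∀ {k : Fin 4} {c : ℂ} {v : Fin 3 → ℂ}, c ≠ 0 → v = c • pt k → eval v g = 0 →
      eval v h = 0 → eta k ∣ q := by
    intro k c v hc hv h1 h2
    apply Finset.dvd_prod_of_mem
    rw [hS, Finset.mem_filter]
    exact ⟨Finset.mem_univ k, hptk hgH hc hv h1, hptk hhH hc hv h2⟩
  by_cases hαβ : β = α
  · -- the member `fB + fC`
    have hα : α ≠ 0 := by
      intro h0
      rw [hαβ, h0, add_zero] at hab
      exact hab rfl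
    have hbound : a * b ≤ 2 * S.card := by
      refine mul_le_mul_of_cover hgH hhH hg0 hh0 hrel (w := (X 2 : R3) ^ 2) (q := q)
        (z_homog.pow 2 |> fun h => by simpa using h) hqH (pow_ne_zero _ z_ne) hq0 hzq.pow_left ?_
      intro v hv
      by_cases hvg : eval v g = 0
      · by_cases hvh : eval v h = 0
        · obtain ⟨hz, k, c, hc, hvc, hevk⟩ := hcz v hv hvg hvh
          obtain ⟨A, B, D, hA, hB, hD, eB, eC, h1, h2⟩ := split k
          obtain ⟨A1, B1, hA1, hB1, hg1⟩ := loc1 k hgH (hptk hgH hc hvc hvg)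
          obtain ⟨C1, D1, hC1, hD1, hh1⟩ := loc1 k hhH (hptk hhH hc hvc hvh)
          have hvz : eval v (X 2 : R3) = 0 := by rw [eval_X]; exact hz
          have hABD : eval v (A * B * D) ≠ 0 := hptk' ((hA.mul hB).mul hD) hc hvc h1
          have he2 : eval v (A * B + B * D + D * A) ≠ 0 :=
            hptk' (((hA.mul hB).add (hB.mul hD)).add (hD.mul hA)) hc hvc h2
          set z2 : R3 := X 2 ^ 2 with hz2
          have hvz2 : eval v z2 = 0 := by rw [hz2, map_pow, hvz]; simp
          set E1 : R3 := C α * ((A - z2) * (B - z2) * (D - z2)) + C α * ((A + z2) * (B + z2) * (D + z2))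
            with hE1
          set E3 : R3 := C α * (2 * (A * B + B * D + D * A) + 2 * z2 ^ 2) with hE3
          have hff : g * h = (eta k) ^ 2 * E1 + z2 ^ 2 * E3 := by
            rw [← hf, hαβ, eB, eC, hE1, hE3]
            ring
          have hE1v : eval v E1 ≠ 0 := by
            have : eval v E1 = 2 * α * eval v (A * B * D) := by
              rw [hE1]
              simp only [map_add, map_mul, map_sub, eval_C, hvz2]
              ring
            rw [this]
            exact mul_ne_zero (mul_ne_zero two_ne_zero hα) hABD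
          have hE3v : eval v E3 ≠ 0 := by
            have : eval v E3 = 2 * α * eval v (A * B + B * D + D * A) := by
              rw [hE3]
              simp only [map_add, map_mul, map_pow, eval_C, hvz2, map_ofNat]
              ring
            rw [this]
            exact mul_ne_zero (mul_ne_zero two_ne_zero hα) he2
          -- first step
          have hr : (A1 * C1 - E1) * (eta k) ^ 2 + (A1 * D1 + B1 * C1) * (eta k * X 2) +
              (B1 * D1 - z2 * E3) * (X 2) ^ 2 = 0 := by
            rw [hg1, hh1] at hff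
            linear_combination hff
          obtain ⟨r1, r2, r3⟩ := reg (eta_ne k) z_ne (z_eta k) hevk hvz hr
          rw [map_sub, map_mul] at r1 r3
          rw [map_mul, hvz2, zero_mul, sub_zero] at r3
          rw [map_add, map_mul, map_mul] at r2
          have hAv : eval v A1 ≠ 0 := by
            intro h0
            rw [h0, zero_mul, zero_sub, neg_eq_zero] at r1
            exact hE1v r1
          have hCv : eval v C1 ≠ 0 := by
            intro h0
            rw [h0, mul_zero, zero_sub, neg_eq_zero] at r1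
            exact hE1v r1
          have hBD : eval v B1 = 0 ∧ eval v D1 = 0 := by
            rcases mul_eq_zero.1 r3 with h0 | h0
            · refine ⟨h0, ?_⟩
              rw [h0, zero_mul, add_zero] at r2
              rcases mul_eq_zero.1 r2 with h | h
              · exact absurd h hAv
              · exact h
            · refine ⟨?_, h0⟩
              rw [h0, mul_zero, zero_add] at r2
              rcases mul_eq_zero.1 r2 with h | h
              · exact h
              · exact absurd h hCv
          obtain ⟨B2, B3, -, -, hB1'⟩ := loc1 k hB1 (hptk hB1 hc hvc hBD.1)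
          obtain ⟨D2, D3, -, -, hD1'⟩ := loc1 k hD1 (hptk hD1 hc hvc hBD.2)
          obtain ⟨Δ, d1, d2, d3⟩ := local_det (L := eta k) (w := z2) (g := g) (h := h)
            (A := A1 + B2 * X 2) (B := B3) (C' := C1 + D2 * X 2) (D := D3) (E1 := E1) (E3 := E3)
            (P := v) (eta_ne k) (pow_ne_zero _ z_ne) (z_eta k).pow_left hevk hvz2
            (by rw [hg1, hB1', hz2]; ring) (by rw [hh1, hD1', hz2]; ring) hff hE1v hE3v
          refine ⟨Δ, d1, ?_, d3⟩
          obtain ⟨t, ht⟩ := hkS hc hvc hvg hvh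
          rw [ht, ← mul_assoc]
          exact Ideal.mul_mem_right _ _ d2
        · refine ⟨h, ?_, ?_, hvh⟩
          · exact Ideal.mul_mem_right _ _ (Ideal.subset_span (by simp))
          · exact Ideal.mul_mem_right _ _ (Ideal.subset_span (by simp))
      · refine ⟨g, ?_, ?_, hvg⟩
        · exact Ideal.mul_mem_right _ _ (Ideal.subset_span (by simp))
        · exact Ideal.mul_mem_right _ _ (Ideal.subset_span (by simp))
    have hS1 : a = 1 → S.card ≤ 1 := by
      intro ha'
      by_contra hlt
      push Not at hlt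
      obtain ⟨k, hk, l, hl, hkl⟩ := Finset.one_lt_card.1 hlt
      rw [hS, Finset.mem_filter] at hk hl
      have := linear_vanish (g := g) (by rw [← ha']; exact hgH) hkl hk.2.1 hl.2.1
      apply eval_one_one α β hab
      rw [hf, map_mul, this, zero_mul]
    have hS2 : b = 1 → S.card ≤ 1 := by
      intro hb'
      by_contra hlt
      push Not at hlt
      obtain ⟨k, hk, l, hl, hkl⟩ := Finset.one_lt_card.1 hlt
      rw [hS, Finset.mem_filter] at hk hl
      have := linear_vanish (g := h) (by rw [← hb']; exact hhH) hkl hk.2.2 hl.2.2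
      apply eval_one_one α β hab
      rw [hf, map_mul, this, mul_zero]
    have hb' : b = 8 - a := by omega
    have ha8 : a ≤ 7 := by omega
    rw [hb'] at hbound hS2
    interval_cases a
    · have := hS1 rfl
      omega
    · omega
    · omega
    · omega
    · omega
    · omega
    · have := hS2 rfl
      omega
  · -- the other members
    have hbound : a * b ≤ 1 * S.card := by
      refine mul_le_mul_of_cover hgH hhH hg0 hh0 hrel (w := (X 2 : R3)) (q := q)
        z_homog hqH z_ne hq0 hzq ?_
      intro v hv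
      by_cases hvg : eval v g = 0
      · by_cases hvh : eval v h = 0
        · obtain ⟨hz, k, c, hc, hvc, hevk⟩ := hcz v hv hvg hvh
          obtain ⟨A, B, D, hA, hB, hD, eB, eC, h1, -⟩ := split k
          obtain ⟨A1, B1, hA1, hB1, hg1⟩ := loc1 k hgH (hptk hgH hc hvc hvg)
          obtain ⟨C1, D1, hC1, hD1, hh1⟩ := loc1 k hhH (hptk hhH hc hvc hvh)
          have hvz : eval v (X 2 : R3) = 0 := by rw [eval_X]; exact hz
          have hABD : eval v (A * B * D) ≠ 0 := hptk' ((hA.mul hB).mul hD) hc hvc h1
          set z2 : R3 := X 2 ^ 2 with hz2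
          have hvz2 : eval v z2 = 0 := by rw [hz2, map_pow, hvz]; simp
          set E1 : R3 := C α * ((A - z2) * (B - z2) * (D - z2)) + C β * ((A + z2) * (B + z2) * (D + z2))
            with hE1
          set E3 : R3 := -(C α * ((A - z2) * (B - z2) * (D - z2))) +
            C β * ((A + z2) * (B + z2) * (D + z2)) with hE3
          have hff : g * h = (eta k) ^ 2 * E1 + (X 2) ^ 2 * E3 := by
            rw [← hf, eB, eC, hE1, hE3]
            ring
          have hE1v : eval v E1 ≠ 0 := by
            have : eval v E1 = (α + β) * eval v (A * B * D) := by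
              rw [hE1]
              simp only [map_add, map_mul, map_sub, eval_C, hvz2]
              ring
            rw [this]
            exact mul_ne_zero hab hABD
          have hE3v : eval v E3 ≠ 0 := by
            have : eval v E3 = (β - α) * eval v (A * B * D) := by
              rw [hE3]
              simp only [map_add, map_mul, map_sub, map_neg, eval_C, hvz2]
              ring
            rw [this]
            exact mul_ne_zero (sub_ne_zero.2 hαβ) hABD
          obtain ⟨Δ, d1, d2, d3⟩ := local_det (L := eta k) (w := X 2) (g := g) (h := h)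
            (A := A1) (B := B1) (C' := C1) (D := D1) (E1 := E1) (E3 := E3)
            (P := v) (eta_ne k) z_ne (z_eta k) hevk hvz hg1 hh1 hff hE1v hE3v
          refine ⟨Δ, d1, ?_, d3⟩
          obtain ⟨t, ht⟩ := hkS hc hvc hvg hvh
          rw [ht, ← mul_assoc]
          exact Ideal.mul_mem_right _ _ d2
        · refine ⟨h, ?_, ?_, hvh⟩
          · exact Ideal.mul_mem_right _ _ (Ideal.subset_span (by simp))
          · exact Ideal.mul_mem_right _ _ (Ideal.subset_span (by simp))
      · refine ⟨g, ?_, ?_, hvg⟩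
        · exact Ideal.mul_mem_right _ _ (Ideal.subset_span (by simp))
        · exact Ideal.mul_mem_right _ _ (Ideal.subset_span (by simp))
    have hb' : b = 8 - a := by omega
    have ha8 : a ≤ 7 := by omega
    rw [hb'] at hbound
    interval_cases a <;> omega

end Q51.MN
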