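import Mathlib
import Pool.Agent.Q51.MN.Loc

set_option autoImplicit false

/-!
# The multinet is not induced from any `Q_n`
-/

namespace Q51.MN

open MvPolynomial Pool.Agent.Chud

theorem lin_rep {l : R3} (hl : l.IsHomogeneous 1) :
    l = ∑ j : Fin 3, C (coeff (Finsupp.single j 1) l) * X j := eq_sum_aux (N := 2) hl

theorem lin_eval {l : R3} (hl : l.IsHomogeneous 1) (x : Fin 3 → ℂ) :
    eval x l = ∑ j : Fin 3, coeff (Finsupp.single j 1) l * x j := by
  conv_lhs => rw [lin_rep hl]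
  simp only [map_sum, map_mul, eval_C, eval_X]

theorem lin_add {l : R3} (hl : l.IsHomogeneous 1) (x v : Fin 3 → ℂ) (t : ℂ) :
    eval (x + t • v) l = eval x l + t * eval v l := by
  rw [lin_eval hl, lin_eval hl, lin_eval hl, Finset.mul_sum, ← Finset.sum_add_distrib]
  apply Finset.sum_congr rfl
  intro j _
  simp only [Pi.add_apply, Pi.smul_apply, smul_eq_mul]
  ring

/-- two linear forms in three variables have a common zero -/
theorem exists_common {l m : R3} (hl : l.IsHomogeneous 1) (hm : m.IsHomogeneous 1) :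
    ∃ v : Fin 3 → ℂ, v ≠ 0 ∧ eval v l = 0 ∧ eval v m = 0 := by
  let A : Matrix (Fin 2) (Fin 3) ℂ :=
    Matrix.of ![fun j => coeff (Finsupp.single j 1) l, fun j => coeff (Finsupp.single j 1) m]
  have h1 : LinearMap.ker A.mulVecLin ≠ ⊥ := by
    apply LinearMap.ker_ne_bot_of_finrank_lt
    simp
  obtain ⟨v, hv, hv0⟩ := Submodule.exists_mem_ne_zero_of_ne_bot h1
  rw [LinearMap.mem_ker, Matrix.mulVecLin_apply] at hv
  refine ⟨v, hv0, ?_, ?_⟩
  · rw [lin_eval hl]
    exact congrFun hv 0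
  · rw [lin_eval hm]
    exact congrFun hv 1

/-- three independent linear forms do not all divide a non-zero difference of powers of two linear forms -/
theorem no_three {l m : R3} (hl : l.IsHomogeneous 1) (hm : m.IsHomogeneous 1) {n : ℕ}
    (hne : l ^ n - m ^ n ≠ 0) {b : Fin 3 → R3} (hb : ∀ i, (b i).IsHomogeneous 1)
    (hind : ∀ v : Fin 3 → ℂ, (∀ i, eval v (b i) = 0) → v = 0) (hdvd : ∀ i, b i ∣ l ^ n - m ^ n) :
    False := by
  obtain ⟨v, hv0, hvl, hvm⟩ := exists_common hl hm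
  obtain ⟨i, hi⟩ : ∃ i, eval v (b i) ≠ 0 := by
    by_contra hcon
    push Not at hcon
    exact hv0 (hind v hcon)
  apply hne
  apply MvPolynomial.funext
  intro x
  obtain ⟨c, hc⟩ := hdvd i
  set t : ℂ := - (eval x (b i)) / eval v (b i) with ht
  have h1 : eval (x + t • v) (b i) = 0 := by
    rw [lin_add (hb i), ht]
    field_simp
    ring
  have h2 : eval (x + t • v) (l ^ n - m ^ n) = 0 := by
    rw [hc, map_mul, h1, zero_mul]
  rw [map_sub, map_pow, map_pow, lin_add hl, lin_add hm, hvl, hvm, mul_zero, add_zero, add_zero] at h2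
  rw [map_zero, map_sub, map_pow, map_pow]
  exact h2

/-- five of the eight lines of the fiber `fB` -/
noncomputable def five : Fin 5 → R3 :=
  ![eta 0 - X 2, eta 0 + X 2, eta 1 - X 2, eta 1 + X 2, eta 2 - X 2]

theorem five_homog (i : Fin 5) : (five i).IsHomogeneous 1 := by
  fin_cases i
  · exact (eta_homog 0).sub z_homog
  · exact (eta_homog 0).add z_homog
  · exact (eta_homog 1).sub z_homog
  · exact (eta_homog 1).add z_homog
  · exact (eta_homog 2).sub z_homog

theorem five_ne (i : Fin 5) : five i ≠ 0 := by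
  intro h
  have h1 : eval ![0, 0, 1] (five i) = 0 := by rw [h, map_zero]
  fin_cases i <;> simp [five, eta] at h1

theorem five_dvd (i : Fin 5) : five i ∣ fB := by
  rw [fB_eq, Fin.prod_univ_four]
  fin_cases i
  · refine ⟨(eta 0 + X 2) * ((eta 1 ^ 2 - X 2 ^ 2) * (eta 2 ^ 2 - X 2 ^ 2) * (eta 3 ^ 2 - X 2 ^ 2)), ?_⟩
    simp only [five, Fin.zero_eta, Matrix.cons_val_zero]; ring
  · refine ⟨(eta 0 - X 2) * ((eta 1 ^ 2 - X 2 ^ 2) * (eta 2 ^ 2 - X 2 ^ 2) * (eta 3 ^ 2 - X 2 ^ 2)), ?_⟩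
    simp only [five, Fin.mk_one, Matrix.cons_val_one, Matrix.cons_val_zero]; ring
  · refine ⟨(eta 1 + X 2) * ((eta 0 ^ 2 - X 2 ^ 2) * (eta 2 ^ 2 - X 2 ^ 2) * (eta 3 ^ 2 - X 2 ^ 2)), ?_⟩
    simp only [five, Fin.reduceFinMk, Matrix.cons_val]; ring
  · refine ⟨(eta 1 - X 2) * ((eta 0 ^ 2 - X 2 ^ 2) * (eta 2 ^ 2 - X 2 ^ 2) * (eta 3 ^ 2 - X 2 ^ 2)), ?_⟩
    simp only [five, Fin.reduceFinMk, Matrix.cons_val]; ring
  · refine ⟨(eta 2 + X 2) * ((eta 0 ^ 2 - X 2 ^ 2) * (eta 1 ^ 2 - X 2 ^ 2) * (eta 3 ^ 2 - X 2 ^ 2)), ?_⟩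
    simp only [five, Fin.reduceFinMk, Matrix.cons_val]; ring

/-- the coefficients of the five forms -/
noncomputable def row : Fin 5 → Fin 3 → ℂ :=
  ![![5, 0, -1], ![5, 0, 1], ![0, 5, -1], ![0, 5, 1], ![3 * Complex.I, 4 * Complex.I, -1]]

theorem five_row (i : Fin 5) (v : Fin 3 → ℂ) : eval v (five i) = ∑ j, row i j * v j := by
  rw [Fin.sum_univ_three]
  fin_cases i <;> simp [five, eta, row] <;> ring

theorem det_ne {i j k : Fin 5} (h1 : i < j) (h2 : j < k) :
    (Matrix.of ![row i, row j, row k]).det ≠ 0 := by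
  rw [Matrix.det_fin_three]
  fin_cases i <;> fin_cases j <;> first | exact absurd h1 (by decide) | skip
  all_goals fin_cases k <;> first | exact absurd h2 (by decide) | skip
  all_goals simp [row, Complex.ext_iff]

theorem five_ind {i j k : Fin 5} (h1 : i < j) (h2 : j < k) (v : Fin 3 → ℂ)
    (h : ∀ m : Fin 3, eval v ((![five i, five j, five k] : Fin 3 → R3) m) = 0) : v = 0 := by
  apply Matrix.eq_zero_of_mulVec_eq_zero (det_ne h1 h2)
  have e0 := h 0
  have e1 := h 1
  have e2 := h 2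
  simp only [Matrix.cons_val_zero, Matrix.cons_val_one, Matrix.cons_val] at e0 e1 e2
  rw [five_row] at e0 e1 e2
  ext m
  fin_cases m
  · exact e0
  · exact e1
  · exact e2

theorem pigeon : ∀ c : Fin 5 → Bool, ∃ i j k : Fin 5, i < j ∧ j < k ∧ c i = c j ∧ c j = c k := by
  decide

/-- not all five lines divide the product of two differences of powers -/
theorem no_five {l1 l2 l3 l4 : R3} (h1 : l1.IsHomogeneous 1) (h2 : l2.IsHomogeneous 1)
    (h3 : l3.IsHomogeneous 1) (h4 : l4.IsHomogeneous 1) {n : ℕ}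
    (hne : (l1 ^ n - l2 ^ n) * (l3 ^ n - l4 ^ n) ≠ 0)
    (hdvd : ∀ i, five i ∣ (l1 ^ n - l2 ^ n) * (l3 ^ n - l4 ^ n)) : False := by
  classical
  have hor : ∀ i, five i ∣ (l1 ^ n - l2 ^ n) ∨ five i ∣ (l3 ^ n - l4 ^ n) := by
    intro i
    have hp : Prime (five i) := (irreducible_linear (five_homog i) (five_ne i)).prime
    exact hp.dvd_or_dvd (hdvd i)
  obtain ⟨i, j, k, hij, hjk, c1, c2⟩ := pigeon (fun i => decide (five i ∣ (l1 ^ n - l2 ^ n)))
  simp only [decide_eq_decide] at c1 c2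
  have hhom : ∀ m : Fin 3, ((![five i, five j, five k] : Fin 3 → R3) m).IsHomogeneous 1 := by
    intro m
    fin_cases m
    · exact five_homog i
    · exact five_homog j
    · exact five_homog k
  by_cases hi : five i ∣ (l1 ^ n - l2 ^ n)
  · apply no_three h1 h2 (left_ne_zero_of_mul hne) hhom (five_ind hij hjk)
    intro m
    fin_cases m
    · exact hi
    · exact c1.1 hi
    · exact c2.1 (c1.1 hi)
  · have hi' := (hor i).resolve_left hi
    have hj' := (hor j).resolve_left (fun h => hi (c1.2 h))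
    have hk' := (hor k).resolve_left (fun h => hi (c1.2 (c2.2 h)))
    apply no_three h3 h4 (right_ne_zero_of_mul hne) hhom (five_ind hij hjk)
    intro m
    fin_cases m
    · exact hi'
    · exact hj'
    · exact hk'

theorem restrict_homog (M : Matrix (Fin 4) (Fin 3) ℂ) (i : Fin 4) :
    (restrict M (X i)).IsHomogeneous 1 := by
  rw [restrict, aeval_X]
  exact IsHomogeneous.sum _ _ _ (fun j _ => isHomogeneous_C_mul_X _ _)

theorem no_induced (n : ℕ) (hmem : fB ∈ pencil) (hred : CompletelyReducible fB) :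
    ¬ InducedFromQ n pencil := by
  rintro ⟨M, -, hne, g, f, hgf, -, hset⟩
  have h1 : fB ∈ {p | p ∈ pencil ∧ CompletelyReducible p} := ⟨hmem, hred⟩
  rw [hset] at h1
  obtain ⟨i, c, hc, hfB⟩ := h1
  have hdvd : ∀ k, five k ∣ restrict M (Qform n i) := by
    intro k
    have h2 : five k ∣ f i := by
      have h3 := five_dvd k
      rw [hfB] at h3
      have hu : IsUnit (C c : R3) := (isUnit_iff_ne_zero.2 hc).map C
      exact (hu.dvd_mul_left).1 h3
    rw [hgf]
    exact Dvd.dvd.mul_left h2 g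
  have hne' := hne i
  have e : ∀ i : Fin 3, ∃ a b c d : Fin 4, restrict M (Qform n i) =
      ((restrict M (X a)) ^ n - (restrict M (X b)) ^ n) *
        ((restrict M (X c)) ^ n - (restrict M (X d)) ^ n) := by
    intro i
    fin_cases i
    · exact ⟨0, 1, 2, 3, by simp [Qform]⟩
    · exact ⟨0, 2, 1, 3, by simp [Qform]⟩
    · exact ⟨0, 3, 1, 2, by simp [Qform]⟩
  obtain ⟨a, b, c', d, he⟩ := e i
  rw [he] at hne' hdvd
  exact no_five (restrict_homog M a) (restrict_homog M b) (restrict_homog M c') (restrict_homog M d)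
    hne' hdvd

end Q51.MN
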