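import Mathlib
import Pool.Agent.Chud.PBZ
import Pool.Agent.Q51.MN.Conn
import Pool.Agent.Q51.MN.Ind

set_option autoImplicit false

/-!
# The pencil is of Ceva type and defines a heavy multinet
-/

namespace Q51.MN

open MvPolynomial Pool.Agent.Chud

theorem fB_mem : fB ∈ pencil := Submodule.subset_span (by simp)
theorem fC_mem : fC ∈ pencil := Submodule.subset_span (by simp)

theorem mem_pencil {f : R3} (h : f ∈ pencil) : ∃ α β : ℂ, f = C α * fB + C β * fC := by
  rw [pencil, Submodule.mem_span_pair] at h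
  obtain ⟨a, b, h⟩ := h
  refine ⟨a, b, ?_⟩
  rw [← h, smul_eq_C_mul, smul_eq_C_mul]

/-- a point of `fB = 0` outside `fC = 0` -/
theorem eval_P1_B : eval ![1, 0, 5] fB = 0 := by
  rw [eval_fB, Fin.prod_univ_four, ev_zero]
  simp

theorem eval_P1_C : eval ![1, 0, 5] fC ≠ 0 := by
  rw [eval_fC, Fin.prod_univ_four, ev_zero, ev_one, ev_two, ev_three]
  simp [mul_pow]
  norm_num

theorem eval_O_B : eval ![0, 0, 1] fB = 1 := by
  rw [eval_fB, Fin.prod_univ_four, ev_zero, ev_one, ev_two, ev_three]
  simp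

theorem eval_O_C : eval ![0, 0, 1] fC = 1 := by
  rw [eval_fC, Fin.prod_univ_four, ev_zero, ev_one, ev_two, ev_three]
  simp

theorem fB_ne : fB ≠ 0 := by
  intro h
  have := eval_O_B
  rw [h, map_zero] at this
  norm_num at this

theorem fC_ne : fC ≠ 0 := by
  intro h
  have := eval_O_C
  rw [h, map_zero] at this
  norm_num at this

theorem finrank_pencil : Module.finrank ℂ pencil = 2 := by
  have hli : LinearIndependent ℂ ![fB, fC] := by
    rw [LinearIndependent.pair_iff]
    intro s t hst
    rw [smul_eq_C_mul, smul_eq_C_mul] at hst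
    have h1 := congrArg (eval ![0, 0, 1]) hst
    have h2 := congrArg (eval ![1, 0, 5]) hst
    rw [map_add, map_mul, map_mul, eval_C, eval_C, map_zero] at h1 h2
    rw [eval_O_B, eval_O_C] at h1
    rw [eval_P1_B, mul_zero, zero_add] at h2
    rcases mul_eq_zero.1 h2 with h | h
    · refine ⟨?_, h⟩
      rw [h] at h1
      linear_combination h1
    · exact absurd h eval_P1_C
  have h1 := finrank_span_eq_card hli
  have h2 : Set.range ![fB, fC] = {fB, fC} := by
    rw [Matrix.range_cons, Matrix.range_cons, Matrix.range_empty, Set.union_empty,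
      Set.singleton_union]
  rw [pencil, ← h2, h1, Fintype.card_fin]

theorem homog_pencil (f : R3) (h : f ∈ pencil) : f.IsHomogeneous 8 := by
  obtain ⟨α, β, rfl⟩ := mem_pencil h
  have h1 := (isHomogeneous_C (Fin 3) α).mul fB_homog
  have h2 := (isHomogeneous_C (Fin 3) β).mul fC_homog
  rw [zero_add] at h1 h2
  exact h1.add h2

/-- the line `y = 2x` has no base point -/
theorem line_free (v : Fin 3 → ℂ) (hv : v ≠ 0) (h : v 1 = 2 * v 0) (hB : eval v fB = 0)
    (hC : eval v fC = 0) : False := by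
  rw [eval_fB, Finset.prod_eq_zero_iff] at hB
  rw [eval_fC, Finset.prod_eq_zero_iff] at hC
  obtain ⟨i, -, hi⟩ := hB
  obtain ⟨j, -, hj⟩ := hC
  let c : Fin 4 → ℂ := ![25, 100, -121, -4]
  have hev : ∀ k, ev v k ^ 2 = c k * v 0 ^ 2 := by
    intro k
    fin_cases k
    · show ev v 0 ^ 2 = 25 * v 0 ^ 2
      rw [ev_zero]; ring
    · show ev v 1 ^ 2 = 100 * v 0 ^ 2
      rw [ev_one, h]; ring
    · show ev v 2 ^ 2 = -121 * v 0 ^ 2
      rw [ev_two, h, mul_pow, Complex.I_sq]; ring
    · show ev v 3 ^ 2 = -4 * v 0 ^ 2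
      rw [ev_three, h, mul_pow, Complex.I_sq]; ring
  have hc : c i + c j ≠ 0 := by
    fin_cases i <;> fin_cases j <;> simp [c] <;> norm_num
  rw [hev] at hi hj
  have h1 : (c i + c j) * v 0 ^ 2 = 0 := by linear_combination hi + hj
  have h2 : v 0 ^ 2 = 0 := by
    rcases mul_eq_zero.1 h1 with h | h
    · exact absurd h hc
    · exact h
  have h3 : v 2 ^ 2 = 0 := by
    rw [h2] at hi
    linear_combination -hi
  have h4 : v 0 = 0 := pow_eq_zero_iff two_ne_zero |>.1 h2
  have h5 : v 2 = 0 := pow_eq_zero_iff two_ne_zero |>.1 h3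
  apply hv
  ext k
  fin_cases k
  · exact h4
  · show v 1 = 0
    rw [h, h4, mul_zero]
  · exact h5

/-- no fixed component -/
theorem relPrime_BC : IsRelPrime fB fC := by
  intro g hgB hgC
  have hgH : g.IsHomogeneous g.totalDegree := homog_of_dvd fB_homog fB_ne hgB
  have hg0 : g ≠ 0 := by
    rintro rfl
    exact fB_ne (zero_dvd_iff.1 hgB)
  set l : R3 := X 1 - C 2 * X 0 with hl
  have hlH : l.IsHomogeneous 1 := (isHomogeneous_X _ _).sub (isHomogeneous_C_mul_X _ _)
  have hl0 : l ≠ 0 := by
    intro h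
    have := congrArg (eval ![0, 1, 0]) h
    simp [hl] at this
  have hOg : eval ![0, 0, 1] g ≠ 0 := by
    intro h0
    obtain ⟨t, ht⟩ := hgB
    have := eval_O_B
    rw [ht, map_mul, h0, zero_mul] at this
    norm_num at this
  have hrel : IsRelPrime g l :=
    (relPrime_of_point hlH hl0 (P := ![0, 0, 1]) (by simp [hl]) hOg).symm
  have hb := mul_le_mul_of_cover hgH hlH hg0 hl0 hrel (w := (1 : R3)) (q := (1 : R3))
    (isHomogeneous_one _ _) (isHomogeneous_one _ _) one_ne_zero one_ne_zero isRelPrime_one_left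
    (by
      intro v hv
      by_cases h1 : eval v g = 0
      · refine ⟨l, ?_, ?_, ?_⟩
        · rw [mul_one]; exact Ideal.subset_span (by simp)
        · rw [mul_one]; exact Ideal.subset_span (by simp)
        · intro h2
          obtain ⟨s, hs⟩ := hgB
          obtain ⟨t, ht⟩ := hgC
          apply line_free v hv
          · have : eval v l = v 1 - 2 * v 0 := by simp [hl]
            rw [this] at h2
            linear_combination h2
          · rw [hs, map_mul, h1, zero_mul]
          · rw [ht, map_mul, h1, zero_mul]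
      · refine ⟨g, ?_, ?_, h1⟩
        · rw [mul_one]; exact Ideal.subset_span (by simp)
        · rw [mul_one]; exact Ideal.subset_span (by simp))
  have h0 : g.totalDegree = 0 := by omega
  rw [totalDegree_eq_zero_iff_eq_C] at h0
  rw [h0]
  apply IsUnit.map
  rw [isUnit_iff_ne_zero]
  intro hc
  apply hg0
  rw [h0, hc, map_zero]

/-! ### the three completely reducible fibers -/

theorem red_B : CompletelyReducible fB := by
  refine ⟨fB_ne, (Finset.univ.val.map (fun h : Fin 4 => eta h - X 2)) +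
    (Finset.univ.val.map (fun h : Fin 4 => eta h + X 2)), ?_, ?_⟩
  · intro l hl
    rw [Multiset.mem_add, Multiset.mem_map, Multiset.mem_map] at hl
    rcases hl with ⟨h, -, rfl⟩ | ⟨h, -, rfl⟩
    · exact (eta_homog h).sub z_homog
    · exact (eta_homog h).add z_homog
  · rw [Multiset.prod_add]
    show fB = (∏ h : Fin 4, (eta h - X 2)) * (∏ h : Fin 4, (eta h + X 2))
    rw [← Finset.prod_mul_distrib, fB_eq]
    apply Finset.prod_congr rfl
    intro h _
    ring

theorem red_C : CompletelyReducible fC := by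
  refine ⟨fC_ne, (Finset.univ.val.map (fun h : Fin 4 => eta h - C Complex.I * X 2)) +
    (Finset.univ.val.map (fun h : Fin 4 => eta h + C Complex.I * X 2)), ?_, ?_⟩
  · intro l hl
    rw [Multiset.mem_add, Multiset.mem_map, Multiset.mem_map] at hl
    rcases hl with ⟨h, -, rfl⟩ | ⟨h, -, rfl⟩
    · exact (eta_homog h).sub (isHomogeneous_C_mul_X _ _)
    · exact (eta_homog h).add (isHomogeneous_C_mul_X _ _)
  · rw [Multiset.prod_add]
    show fC = (∏ h : Fin 4, (eta h - C Complex.I * X 2)) * (∏ h : Fin 4, (eta h + C Complex.I * X 2))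
    rw [← Finset.prod_mul_distrib, fC_eq]
    apply Finset.prod_congr rfl
    intro h _
    have := CI_sq
    linear_combination (X 2 ^ 2) * this

/-- the third fiber -/
theorem diff_eq : fB - fC = X 2 ^ 2 * (C (-1200) * (X 0 + C Complex.I * X 1) *
    (X 0 - C Complex.I * X 1) * (C 2 * X 0 + X 1) * (X 0 - C 2 * X 1) * (C 3 * X 0 - X 1) *
    (X 0 + C 3 * X 1)) := by
  apply MvPolynomial.funext
  intro x
  have hI := Complex.I_sq
  simp only [fB, fC, map_sub, map_mul, map_add, map_pow, eval_X, eval_C, map_ofNat]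
  linear_combination (1200 * x 1 ^ 2 * x 2 ^ 2 * (2 * x 0 + x 1) * (x 0 - 2 * x 1) *
    (3 * x 0 - x 1) * (x 0 + 3 * x 1)) * (-hI)

theorem diff_ne : fB - fC ≠ 0 := by
  intro h
  have h1 := congrArg (eval ![1, 0, 5]) h
  rw [map_sub, eval_P1_B, zero_sub, map_zero, neg_eq_zero] at h1
  exact eval_P1_C h1

theorem red_A : CompletelyReducible (fB - fC) := by
  refine ⟨diff_ne, {C (-1200) * X 2, X 2, X 0 + C Complex.I * X 1, X 0 - C Complex.I * X 1,
    C 2 * X 0 + X 1, X 0 - C 2 * X 1, C 3 * X 0 - X 1, X 0 + C 3 * X 1}, ?_, ?_⟩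
  · intro l hl
    simp only [Multiset.insert_eq_cons, Multiset.mem_cons, Multiset.mem_singleton] at hl
    rcases hl with rfl | rfl | rfl | rfl | rfl | rfl | rfl | rfl
    · exact isHomogeneous_C_mul_X _ _
    · exact isHomogeneous_X _ _
    · exact (isHomogeneous_X _ _).add (isHomogeneous_C_mul_X _ _)
    · exact (isHomogeneous_X _ _).sub (isHomogeneous_C_mul_X _ _)
    · exact (isHomogeneous_C_mul_X _ _).add (isHomogeneous_X _ _)
    · exact (isHomogeneous_X _ _).sub (isHomogeneous_C_mul_X _ _)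
    · exact (isHomogeneous_C_mul_X _ _).sub (isHomogeneous_X _ _)
    · exact (isHomogeneous_X _ _).add (isHomogeneous_C_mul_X _ _)
  · simp only [Multiset.insert_eq_cons, Multiset.prod_cons, Multiset.prod_singleton]
    rw [diff_eq]
    ring

theorem three_fibers : ∃ f : Fin 3 → R3, (∀ i, f i ∈ pencil ∧ CompletelyReducible (f i)) ∧
    ∀ i j, i ≠ j → ∀ c : ℂ, f i ≠ C c * f j := by
  refine ⟨![fB, fC, fB - fC], ?_, ?_⟩
  · intro i
    fin_cases i
    · exact ⟨fB_mem, red_B⟩
    · exact ⟨fC_mem, red_C⟩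
    · exact ⟨Submodule.sub_mem _ fB_mem fC_mem, red_A⟩
  · intro i j hij c heq
    have hO := congrArg (eval ![0, 0, 1]) heq
    have hP := congrArg (eval ![1, 0, 5]) heq
    have hC := eval_P1_C
    rw [map_mul, eval_C] at hO hP
    fin_cases i <;> fin_cases j <;> first | exact absurd rfl hij | skip
    · -- fB = c fC
      change eval _ fB = c * eval _ fC at hO hP
      rw [eval_P1_B] at hP
      rcases mul_eq_zero.1 hP.symm with h | h
      · rw [h, zero_mul, eval_O_B] at hO
        norm_num at hO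
      · exact hC h
    · change eval _ fB = c * eval _ (fB - fC) at hO
      rw [map_sub, eval_O_B, eval_O_C, sub_self, mul_zero] at hO
      norm_num at hO
    · change eval _ fC = c * eval _ fB at hP
      rw [eval_P1_B, mul_zero] at hP
      exact hC hP
    · change eval _ fC = c * eval _ (fB - fC) at hO
      rw [map_sub, eval_O_B, eval_O_C, sub_self, mul_zero] at hO
      norm_num at hO
    · change eval _ (fB - fC) = c * eval _ fB at hO hP
      rw [map_sub, eval_P1_B, mul_zero, zero_sub, neg_eq_zero] at hP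
      exact hC hP
    · change eval _ (fB - fC) = c * eval _ fC at hO hP
      rw [map_sub, eval_O_B, eval_O_C, sub_self, mul_one] at hO
      rw [map_sub, ← hO, zero_mul, eval_P1_B, zero_sub, neg_eq_zero] at hP
      exact hC hP

theorem not_unit_z : ¬ IsUnit (X 2 : R3) := (irreducible_linear z_homog z_ne).not_isUnit

theorem connected (f : R3) (hf : f ∈ pencil) (hsq : Squarefree f) (g h : R3)
    (hgh : f = g * h) (hg : ¬ IsUnit g) (hh : ¬ IsUnit h) :
    ∃ P : Fin 3 → ℂ, P ≠ 0 ∧ eval P g = 0 ∧ eval P h = 0 ∧ ¬ InBase pencil P := by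
  obtain ⟨α, β, hαβ⟩ := mem_pencil hf
  by_contra hcon
  push Not at hcon
  have hab : α + β ≠ 0 := by
    intro h0
    apply not_unit_z
    apply hsq
    have e : f = C α * (fB - fC) := by
      have hβ : β = -α := by linear_combination h0
      rw [hαβ, hβ, map_neg]
      ring
    rw [e, diff_eq, ← pow_two]
    exact ⟨C α * (C (-1200) * (X 0 + C Complex.I * X 1) *
      (X 0 - C Complex.I * X 1) * (C 2 * X 0 + X 1) * (X 0 - C 2 * X 1) * (C 3 * X 0 - X 1) *
      (X 0 + C 3 * X 1)), by ring⟩
  have hrel : IsRelPrime g h := by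
    rw [hgh] at hsq
    exact IsRelPrime.of_squarefree_mul hsq
  apply connected_aux hab (hαβ.symm.trans hgh) hrel hg hh
  intro P hP h1 h2
  have := hcon P hP h1 h2
  exact ⟨this fB fB_mem, this fC fC_mem⟩

theorem isCeva : IsCevaPencil 8 pencil where
  finrank_eq := finrank_pencil
  homogeneous := homog_pencil
  no_fixed := fun _ hg => relPrime_BC (hg fB fB_mem) (hg fC fC_mem)
  three := three_fibers
  connected := fun f hf _ hsq g h hgh hg hh => connected f hf hsq g h hgh hg hh

/-! ### the multinet is not a net -/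

theorem base_iff (P : Fin 3 → ℂ) : InBase pencil P ↔ eval P fB = 0 ∧ eval P fC = 0 := by
  constructor
  · intro h
    exact ⟨h fB fB_mem, h fC fC_mem⟩
  · rintro ⟨h1, h2⟩ f hf
    obtain ⟨α, β, rfl⟩ := mem_pencil hf
    rw [map_add, map_mul, map_mul, h1, h2]
    ring

theorem not_net : (base pencil).ncard ≠ 8 ^ 2 := by
  classical
  intro hcard
  have hfin : (base pencil).Finite := Set.finite_of_ncard_ne_zero (by rw [hcard]; norm_num)
  let S : Finset (PP ℂ 2) := hfin.toFinset
  have hS : S.card = 64 := by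
    have := Set.ncard_eq_toFinset_card (base pencil) hfin
    rw [hcard] at this
    have h2 : (8 : ℕ) ^ 2 = 64 := by norm_num
    rw [← h2, this]
  let p0 : PP ℂ 2 := Projectivization.mk ℂ (pt 0) (pt_ne 0)
  obtain ⟨c, hc, hp0⟩ : ∃ c : ℂ, c ≠ 0 ∧ p0.rep = c • pt 0 := by
    obtain ⟨u, hu⟩ := Projectivization.exists_smul_eq_mk_rep ℂ (pt 0) (pt_ne 0)
    exact ⟨u, u.ne_zero, by rw [← hu]; rfl⟩
  have hmemS : ∀ p : PP ℂ 2, p ∈ S ↔ eval p.rep fB = 0 ∧ eval p.rep fC = 0 := by
    intro p
    rw [Set.Finite.mem_toFinset]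
    exact base_iff p.rep
  have heta0 : eta 0 ∈ mI p0.rep := by
    rw [mI, RingHom.mem_ker, hp0, eval_scale (eta_homog 0), eta_pt, mul_zero]
  have hz0 : (X 2 : R3) ∈ mI p0.rep := by
    rw [mI, RingHom.mem_ker, hp0, eval_X, Pi.smul_apply, pt_two, smul_zero]
  have hB2 : fB ∈ mI p0.rep ^ 2 := by
    obtain ⟨A, B, D, -, -, -, eB, -⟩ := split 0
    rw [eB]
    apply Ideal.mul_mem_right
    exact Ideal.sub_mem _ (Ideal.pow_mem_pow heta0 2) (Ideal.pow_mem_pow hz0 2)
  have hC2 : fC ∈ mI p0.rep ^ 2 := by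
    obtain ⟨A, B, D, -, -, -, -, eC, -⟩ := split 0
    rw [eC]
    apply Ideal.mul_mem_right
    exact Ideal.add_mem _ (Ideal.pow_mem_pow heta0 2) (Ideal.pow_mem_pow hz0 2)
  have hp0S : p0 ∈ S := by
    rw [hmemS]
    have h1 := Ideal.pow_le_self two_ne_zero hB2
    have h2 := Ideal.pow_le_self two_ne_zero hC2
    rw [mI, RingHom.mem_ker] at h1 h2
    exact ⟨h1, h2⟩
  let r : PP ℂ 2 → ℕ := fun p => if p = p0 then 2 else 1
  have hb := bezout fB_homog fC_homog fB_ne fC_ne relPrime_BC S r r
    (by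
      intro p hp
      simp only [r]
      split_ifs with h
      · rw [h]; exact hB2
      · rw [pow_one, mI, RingHom.mem_ker]
        exact ((hmemS p).1 hp).1)
    (by
      intro p hp
      simp only [r]
      split_ifs with h
      · rw [h]; exact hC2
      · rw [pow_one, mI, RingHom.mem_ker]
        exact ((hmemS p).1 hp).2)
  have hsum : ∑ p ∈ S, r p * r p = 67 := by
    have h1 : ∀ p ∈ S, r p * r p = 1 + (if p = p0 then 3 else 0) := by
      intro p _
      simp only [r]
      split_ifs <;> norm_num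
    rw [Finset.sum_congr rfl h1, Finset.sum_add_distrib, Finset.sum_ite_eq', if_pos hp0S]
    simp [hS]
  omega

theorem isHeavy : IsHeavyMultinet 8 pencil where
  ceva := isCeva
  not_net := not_net
  not_light := by
    refine ⟨fB - fC, Submodule.sub_mem _ fB_mem fC_mem, red_A, X 2, z_ne, z_homog, ?_⟩
    rw [diff_eq]
    exact Dvd.intro _ rfl

end Q51.MN
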